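import Mathlib

set_option autoImplicit false

/-!
# Rounding two free coordinates

The real inequality behind the rounding of a point of the cube with two free coordinates, with
respect to two functionals with coefficients of absolute value at most one.
-/

namespace Pool.Agent.Helper762_FF

/-- The main case: both functionals have coefficients of constant sign. -/
theorem main_case {p p' q q' s t U V : ℝ} (hp : 0 < p) (hpp : p + p' = 2)
    (hq : 0 < q) (hqq : q + q' = 2) (hs : 0 ≤ s) (hs1 : s ≤ 1) (ht : 0 ≤ t) (ht1 : t ≤ 1)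
    (hU1 : U ≤ 1) (hV1 : V ≤ 1) (h1 : 1 + p * s ≤ q' * t) (h2 : 1 + q * t ≤ p' * s)
    (h3 : 1 ≤ p * U + q * V) : s = 1 ∧ t = 1 ∧ U = 1 ∧ V = 1 := by
  have e1 : q' * t = 2 * t - q * t := by rw [← hqq]; ring
  have e2 : p' * s = 2 * s - p * s := by rw [← hpp]; ring
  have e3 : 0 ≤ p * (1 - U) := mul_nonneg hp.le (by linarith)
  have e4 : 0 ≤ q * (1 - V) := mul_nonneg hq.le (by linarith)
  have e5 : 1 ≤ p + q := by linarith
  have e6 : s = 1 ∧ t = 1 := by
    rcases le_total s t with h | h
    · have f1 : 0 ≤ q * (t - s) := mul_nonneg hq.le (by linarith)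
      have f2 : 0 ≤ (p + q - 1) * s := mul_nonneg (by linarith) hs
      constructor <;> linarith
    · have f1 : 0 ≤ p * (s - t) := mul_nonneg hp.le (by linarith)
      have f2 : 0 ≤ (p + q - 1) * t := mul_nonneg (by linarith) ht
      constructor <;> linarith
  obtain ⟨rfl, rfl⟩ := e6
  have e7 : p + q = 1 := by linarith
  have e8 : p * (1 - U) = 0 := by linarith
  have e9 : q * (1 - V) = 0 := by linarith
  refine ⟨rfl, rfl, ?_, ?_⟩
  · rcases mul_eq_zero.1 e8 with h | h
    · exact absurd h hp.ne'
    · linarith
  · rcases mul_eq_zero.1 e9 with h | h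
    · exact absurd h hq.ne'
    · linarith

/-- If all four roundings of two free coordinates fail then the two functionals are dependent on
these coordinates. -/
theorem two_free_core {p p' q q' s t u v : ℝ} (hp : 0 < p) (hp' : 0 < p') (hpp : p + p' = 2)
    (hq : 0 < q) (hq' : 0 < q') (hqq : q + q' = 2) (hs : 0 ≤ s) (hs1 : s ≤ 1) (ht : 0 ≤ t)
    (ht1 : t ≤ 1) (hu : -1 ≤ u) (hu1 : u ≤ 1) (hv : -1 ≤ v) (hv1 : v ≤ 1)
    (h1 : ¬ (0 < 1 + p * s + q * t ∧ 0 < 1 + p * u + q * v))
    (h2 : ¬ (0 < 1 + p * s - q' * t ∧ 0 < 1 + p * u - q' * v))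
    (h3 : ¬ (0 < 1 - p' * s + q * t ∧ 0 < 1 - p' * u + q * v))
    (h4 : ¬ (0 < 1 - p' * s - q' * t ∧ 0 < 1 - p' * u - q' * v)) : s * v - t * u = 0 := by
  have hps : 0 ≤ p * s := by positivity
  have hqt : 0 ≤ q * t := by positivity
  have hp's : 0 ≤ p' * s := by positivity
  have hq't : 0 ≤ q' * t := by positivity
  have hB : 1 + p * u + q * v ≤ 0 := by
    by_contra h
    exact h1 ⟨by linarith, by linarith⟩
  rcases le_or_gt 0 u with hu0 | hu0
  · rcases le_or_gt 0 v with hv0 | hv0
    · have : 0 ≤ p * u := by positivity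
      have : 0 ≤ q * v := by positivity
      linarith
    · -- `u ≥ 0 > v`
      have hpu : 0 ≤ p * u := by positivity
      have hq'v : q' * v < 0 := mul_neg_of_pos_of_neg hq' hv0
      have hA : 1 + p * s - q' * t ≤ 0 := by
        by_contra h
        exact h2 ⟨by linarith, by linarith⟩
      have e1 : q' * t ≤ q' := mul_le_of_le_one_right hq'.le ht1
      have e2 : -(q * v) ≤ q := by
        have := mul_le_of_le_one_right (b := -v) hq.le (by linarith)
        rwa [mul_neg] at this
      have e3 : p * s = 0 := by linarith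
      have e4 : p * u = 0 := by linarith
      have e5 : s = 0 := by
        rcases mul_eq_zero.1 e3 with h | h
        · linarith
        · exact h
      have e6 : u = 0 := by
        rcases mul_eq_zero.1 e4 with h | h
        · linarith
        · exact h
      rw [e5, e6]; ring
  · rcases le_or_gt 0 v with hv0 | hv0
    · -- `u < 0 ≤ v`
      have hqv : 0 ≤ q * v := by positivity
      have hp'u : p' * u < 0 := mul_neg_of_pos_of_neg hp' hu0
      have hA : 1 - p' * s + q * t ≤ 0 := by
        by_contra h
        exact h3 ⟨by linarith, by linarith⟩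
      have e1 : p' * s ≤ p' := mul_le_of_le_one_right hp'.le hs1
      have e2 : -(p * u) ≤ p := by
        have := mul_le_of_le_one_right (b := -u) hp.le (by linarith)
        rwa [mul_neg] at this
      have e3 : q * t = 0 := by linarith
      have e4 : q * v = 0 := by linarith
      have e5 : t = 0 := by
        rcases mul_eq_zero.1 e3 with h | h
        · linarith
        · exact h
      have e6 : v = 0 := by
        rcases mul_eq_zero.1 e4 with h | h
        · linarith
        · exact h
      rw [e5, e6]; ring
    · -- both negative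
      have hp'u : p' * u < 0 := mul_neg_of_pos_of_neg hp' hu0
      have hq'v : q' * v < 0 := mul_neg_of_pos_of_neg hq' hv0
      have hpu : p * u < 0 := mul_neg_of_pos_of_neg hp hu0
      have hqv : q * v < 0 := mul_neg_of_pos_of_neg hq hv0
      have hA : 1 - p' * s - q' * t ≤ 0 := by
        by_contra h
        exact h4 ⟨by linarith, by linarith⟩
      have b1 : -(p * u) ≤ p := by
        have := mul_le_of_le_one_right (b := -u) hp.le (by linarith)
        rwa [mul_neg] at this
      have b2 : -(q * v) ≤ q := by
        have := mul_le_of_le_one_right (b := -v) hq.le (by linarith)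
        rwa [mul_neg] at this
      have b3 : p' * s ≤ p' := mul_le_of_le_one_right hp'.le hs1
      have b4 : q' * t ≤ q' := mul_le_of_le_one_right hq'.le ht1
      have hpq : 1 ≤ p + q := by linarith
      have hpq' : 1 ≤ p' + q' := by linarith
      rcases not_and_or.1 h2 with h2' | h2'
      · rcases not_and_or.1 h3 with h3' | h3'
        · -- (A, A)
          obtain ⟨c1, c2, c3, c4⟩ := main_case (U := -u) (V := -v) hp hpp hq hqq hs hs1 ht ht1
            (by linarith) (by linarith) (by linarith) (by linarith)
            (by rw [mul_neg, mul_neg]; linarith)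
          have c5 : u = -1 := by linarith
          have c6 : v = -1 := by linarith
          rw [c1, c2, c5, c6]; ring
        · -- (A, B)
          exfalso
          linarith
      · rcases not_and_or.1 h3 with h3' | h3'
        · -- (B, A)
          exfalso
          linarith
        · -- (B, B)
          obtain ⟨c1, c2, c3, c4⟩ := main_case (p := p') (p' := p) (q := q') (q' := q) (s := -u)
            (t := -v) (U := s) (V := t) hp' (by linarith) hq' (by linarith) (by linarith)
            (by linarith) (by linarith) (by linarith) hs1 ht1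
            (by rw [mul_neg, mul_neg]; linarith) (by rw [mul_neg, mul_neg]; linarith)
            (by linarith)
          have c5 : u = -1 := by linarith
          have c6 : v = -1 := by linarith
          rw [c3, c4, c5, c6]; ring

/-- The same without the normalisation of the signs of the first functional. -/
theorem two_free {x y s t u v : ℝ} (hx : |x| < 1) (hy : |y| < 1) (hs : |s| ≤ 1) (ht : |t| ≤ 1)
    (hu : |u| ≤ 1) (hv : |v| ≤ 1) (hdet : s * v - t * u ≠ 0) :
    ∃ σ τ : ℝ, (σ = 1 ∨ σ = -1) ∧ (τ = 1 ∨ τ = -1) ∧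
      0 < 1 + (σ - x) * s + (τ - y) * t ∧ 0 < 1 + (σ - x) * u + (τ - y) * v := by
  by_contra hcon
  push Not at hcon
  have k1 : ¬ (0 < 1 + (1 - x) * s + (1 - y) * t ∧ 0 < 1 + (1 - x) * u + (1 - y) * v) := by
    rintro ⟨a, b⟩
    exact absurd (hcon 1 1 (Or.inl rfl) (Or.inl rfl) a) (not_le.2 b)
  have k2 : ¬ (0 < 1 + (1 - x) * s - (1 + y) * t ∧ 0 < 1 + (1 - x) * u - (1 + y) * v) := by
    rintro ⟨a, b⟩
    exact absurd (hcon 1 (-1) (Or.inl rfl) (Or.inr rfl) (by linarith)) (by linarith)
  have k3 : ¬ (0 < 1 - (1 + x) * s + (1 - y) * t ∧ 0 < 1 - (1 + x) * u + (1 - y) * v) := by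
    rintro ⟨a, b⟩
    exact absurd (hcon (-1) 1 (Or.inr rfl) (Or.inl rfl) (by linarith)) (by linarith)
  have k4 : ¬ (0 < 1 - (1 + x) * s - (1 + y) * t ∧ 0 < 1 - (1 + x) * u - (1 + y) * v) := by
    rintro ⟨a, b⟩
    exact absurd (hcon (-1) (-1) (Or.inr rfl) (Or.inr rfl) (by linarith)) (by linarith)
  rw [abs_lt] at hx hy
  rw [abs_le] at hs ht hu hv
  rcases le_total 0 s with h0 | h0 <;> rcases le_total 0 t with h0' | h0'
  · apply hdet
    exact two_free_core (p := 1 - x) (p' := 1 + x) (q := 1 - y) (q' := 1 + y) (by linarith)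
      (by linarith) (by ring) (by linarith) (by linarith) (by ring) h0 hs.2 h0' ht.2 hu.1 hu.2
      hv.1 hv.2 k1 k2 k3 k4
  · apply hdet
    have := two_free_core (p := 1 - x) (p' := 1 + x) (q := 1 + y) (q' := 1 - y) (s := s)
      (t := -t) (u := u) (v := -v) (by linarith)
      (by linarith) (by ring) (by linarith) (by linarith) (by ring) h0 hs.2 (by linarith)
      (by linarith) hu.1 hu.2 (by linarith) (by linarith)
      (by rintro ⟨a, b⟩; exact k2 ⟨by linarith, by linarith⟩)
      (by rintro ⟨a, b⟩; exact k1 ⟨by linarith, by linarith⟩)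
      (by rintro ⟨a, b⟩; exact k4 ⟨by linarith, by linarith⟩)
      (by rintro ⟨a, b⟩; exact k3 ⟨by linarith, by linarith⟩)
    linarith
  · apply hdet
    have := two_free_core (p := 1 + x) (p' := 1 - x) (q := 1 - y) (q' := 1 + y) (s := -s)
      (t := t) (u := -u) (v := v) (by linarith)
      (by linarith) (by ring) (by linarith) (by linarith) (by ring) (by linarith) (by linarith)
      h0' ht.2 (by linarith) (by linarith) hv.1 hv.2
      (by rintro ⟨a, b⟩; exact k3 ⟨by linarith, by linarith⟩)
      (by rintro ⟨a, b⟩; exact k4 ⟨by linarith, by linarith⟩)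
      (by rintro ⟨a, b⟩; exact k1 ⟨by linarith, by linarith⟩)
      (by rintro ⟨a, b⟩; exact k2 ⟨by linarith, by linarith⟩)
    linarith
  · apply hdet
    have := two_free_core (p := 1 + x) (p' := 1 - x) (q := 1 + y) (q' := 1 - y) (s := -s)
      (t := -t) (u := -u) (v := -v) (by linarith)
      (by linarith) (by ring) (by linarith) (by linarith) (by ring) (by linarith) (by linarith)
      (by linarith) (by linarith) (by linarith) (by linarith) (by linarith) (by linarith)
      (by rintro ⟨a, b⟩; exact k4 ⟨by linarith, by linarith⟩)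
      (by rintro ⟨a, b⟩; exact k3 ⟨by linarith, by linarith⟩)
      (by rintro ⟨a, b⟩; exact k2 ⟨by linarith, by linarith⟩)
      (by rintro ⟨a, b⟩; exact k1 ⟨by linarith, by linarith⟩)
    linarith

end Pool.Agent.Helper762_FF
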