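import Mathlib
import Pool.Agent.Helper762_FF.Core
import Pool.Agent.Y512.Exit

set_option autoImplicit false

/-!
# Rounding a point of the cube to a vertex, for two functionals

`Rnd x τ`: the sign vector `τ` is a rounding of `x`: it agrees with `x` at the coordinates of `x`
of absolute value one.
-/

namespace Pool.Agent.Helper762_FF

open Finset Pool.Agent.Y512

variable {n : ℕ}

/-- `τ` is a sign vector which agrees with `x` at the coordinates of absolute value one -/
def Rnd (x τ : Fin n → ℝ) : Prop :=
  ∀ j, (τ j = 1 ∨ τ j = -1) ∧ (|x j| = 1 → τ j = x j)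

/-- the bilinear form `∑ a j * x j` -/
def dp (a x : Fin n → ℝ) : ℝ := ∑ j, a j * x j

theorem dp_add (a x y : Fin n → ℝ) : dp a (x + y) = dp a x + dp a y := by
  simp only [dp, Pi.add_apply, mul_add, Finset.sum_add_distrib]

theorem dp_sub (a x y : Fin n → ℝ) : dp a (x - y) = dp a x - dp a y := by
  simp only [dp, Pi.sub_apply, mul_sub, Finset.sum_sub_distrib]

theorem dp_smul (a x : Fin n → ℝ) (t : ℝ) : dp a (t • x) = t * dp a x := by
  simp only [dp, Pi.smul_apply, smul_eq_mul, Finset.mul_sum]
  refine Finset.sum_congr rfl fun j _ => ?_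
  ring

theorem dp_neg (a x : Fin n → ℝ) : dp (-a) x = -dp a x := by
  simp only [dp, Pi.neg_apply, neg_mul, Finset.sum_neg_distrib]

theorem dp_neg_right (a x : Fin n → ℝ) : dp a (-x) = -dp a x := by
  simp only [dp, Pi.neg_apply, mul_neg, Finset.sum_neg_distrib]

theorem dp_single (a : Fin n → ℝ) (i : Fin n) (t : ℝ) : dp a (Pi.single i t) = a i * t := by
  simp only [dp]
  rw [Finset.sum_eq_single i]
  · simp
  · intro j _ hj
    simp [Pi.single_eq_of_ne hj]
  · simp

/-- the number of the coordinates that are not `1` or `-1` -/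
noncomputable def free (x : Fin n → ℝ) : ℕ := (univ.filter fun j => |x j| ≠ 1).card

/-- A point can be moved in the direction `z` until one more coordinate is `±1`. -/
theorem move {x z : Fin n → ℝ} (hx : ∀ j, |x j| ≤ 1) (hz : z ≠ 0) (hzx : ∀ j, |x j| = 1 → z j = 0) :
    ∃ s : ℝ, (∀ j, |(x + s • z) j| ≤ 1) ∧ free (x + s • z) < free x := by
  obtain ⟨s, -, hs, j, hj, hj1⟩ := exit_ray hx hz
  refine ⟨s, hs, Finset.card_lt_card ?_⟩
  rw [Finset.ssubset_iff_of_subset]
  · refine ⟨j, ?_, ?_⟩
    · simp only [mem_filter, mem_univ, true_and]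
      intro h
      exact hj (hzx j h)
    · simp only [mem_filter, mem_univ, true_and, not_not]
      exact hj1
  · intro k hk
    simp only [mem_filter, mem_univ, true_and] at hk ⊢
    intro h
    apply hk
    rw [Pi.add_apply, Pi.smul_apply, hzx k h, smul_zero, add_zero]
    exact h

theorem rnd_move {x z τ : Fin n → ℝ} {s : ℝ} (hzx : ∀ j, |x j| = 1 → z j = 0)
    (h : Rnd (x + s • z) τ) : Rnd x τ := by
  intro j
  refine ⟨(h j).1, fun hj => ?_⟩
  have e : (x + s • z) j = x j := by
    rw [Pi.add_apply, Pi.smul_apply, hzx j hj, smul_zero, add_zero]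
  rw [← e]
  apply (h j).2
  rw [e]
  exact hj

theorem dp_update (a x : Fin n → ℝ) (i : Fin n) (t : ℝ) :
    dp a (Function.update x i t) = dp a x + a i * (t - x i) := by
  have : Function.update x i t = x + Pi.single i (t - x i) := by
    funext j
    by_cases h : j = i
    · subst h; simp
    · simp [Function.update_of_ne h, Pi.single_eq_of_ne h]
  rw [this, dp_add, dp_single]

/-- a kernel vector for two functionals with dependent restrictions to two coordinates -/
theorem kernel_two {a b : Fin n → ℝ} {i j : Fin n} (hij : i ≠ j) (hdet : a i * b j - a j * b i = 0) :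
    ∃ z : Fin n → ℝ, z ≠ 0 ∧ (∀ k, k ≠ i → k ≠ j → z k = 0) ∧ dp a z = 0 ∧ dp b z = 0 := by
  have key : ∀ c d : ℝ, (c ≠ 0 ∨ d ≠ 0) → a i * c + a j * d = 0 → b i * c + b j * d = 0 →
      ∃ z : Fin n → ℝ, z ≠ 0 ∧ (∀ k, k ≠ i → k ≠ j → z k = 0) ∧ dp a z = 0 ∧ dp b z = 0 := by
    intro c d hcd h1 h2
    refine ⟨Pi.single i c + Pi.single j d, ?_, ?_, ?_, ?_⟩
    · intro h0
      rcases hcd with h | h
      · apply h
        have := congrFun h0 i
        simpa [Pi.single_eq_of_ne hij] using this
      · apply h
        have := congrFun h0 j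
        simpa [Pi.single_eq_of_ne hij.symm] using this
    · intro k hk hk'
      simp [Pi.single_eq_of_ne hk, Pi.single_eq_of_ne hk']
    · rw [dp_add, dp_single, dp_single]; exact h1
    · rw [dp_add, dp_single, dp_single]; exact h2
  by_cases h1 : a i = 0 ∧ a j = 0
  · by_cases h2 : b i = 0 ∧ b j = 0
    · exact key 1 0 (Or.inl one_ne_zero) (by rw [h1.1, h1.2]; ring) (by rw [h2.1, h2.2]; ring)
    · refine key (b j) (-(b i)) ?_ (by rw [h1.1, h1.2]; ring) (by ring)
      by_contra h
      push Not at h
      exact h2 ⟨by linarith [h.2], h.1⟩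
  · refine key (a j) (-(a i)) ?_ (by ring) (by linarith)
    by_contra h
    push Not at h
    exact h1 ⟨by linarith [h.2], h.1⟩

/-- a kernel vector for two functionals supported on three coordinates -/
theorem kernel_three {a b : Fin n → ℝ} {i j k : Fin n} (hij : i ≠ j) (hik : i ≠ k) (hjk : j ≠ k)
    (hdet : a i * b j - a j * b i ≠ 0) :
    ∃ z : Fin n → ℝ, z ≠ 0 ∧ (∀ l, l ≠ i → l ≠ j → l ≠ k → z l = 0) ∧ dp a z = 0 ∧ dp b z = 0 := by
  refine ⟨Pi.single i (a j * b k - a k * b j) + Pi.single j (a k * b i - a i * b k) +
    Pi.single k (a i * b j - a j * b i), ?_, ?_, ?_, ?_⟩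
  · intro h0
    apply hdet
    have := congrFun h0 k
    simpa [Pi.single_eq_of_ne hik.symm, Pi.single_eq_of_ne hjk.symm] using this
  · intro l h1 h2 h3
    simp [Pi.single_eq_of_ne h1, Pi.single_eq_of_ne h2, Pi.single_eq_of_ne h3]
  · rw [dp_add, dp_add, dp_single, dp_single, dp_single]; ring
  · rw [dp_add, dp_add, dp_single, dp_single, dp_single]; ring

/-- **Rounding for two functionals.** Let `x` be a point of the cube at which two functionals with
coefficients of absolute value at most one have the value one.  There is a rounding of `x` at which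
both are positive, or there are two roundings at which one of them is zero and the other one is
positive, in both ways. -/
theorem round_two (a b : Fin n → ℝ) (ha : ∀ j, |a j| ≤ 1) (hb : ∀ j, |b j| ≤ 1) :
    ∀ (N : ℕ) (x : Fin n → ℝ), free x ≤ N → (∀ j, |x j| ≤ 1) → dp a x = 1 → dp b x = 1 →
    (∃ τ, Rnd x τ ∧ 0 < dp a τ ∧ 0 < dp b τ) ∨
    (∃ τ σ, Rnd x τ ∧ Rnd x σ ∧ dp b τ = 0 ∧ 0 < dp a τ ∧ dp a σ = 0 ∧ 0 < dp b σ) := by
  classical
  intro N
  induction N with
  | zero =>
    intro x hN hx h1 h2
    left
    have hall : ∀ j, |x j| = 1 := by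
      intro j
      by_contra h
      have : j ∈ (univ.filter fun j => |x j| ≠ 1) := by simp [h]
      have h0 : (univ.filter fun j => |x j| ≠ 1).card = 0 := Nat.le_zero.1 hN
      rw [Finset.card_eq_zero] at h0
      rw [h0] at this
      simp at this
    refine ⟨x, fun j => ⟨(abs_eq zero_le_one).1 (hall j), fun _ => rfl⟩, ?_, ?_⟩
    · rw [h1]; norm_num
    · rw [h2]; norm_num
  | succ N ih =>
    intro x hN hx h1 h2
    -- moving along a kernel vector
    have step : ∀ z : Fin n → ℝ, z ≠ 0 → (∀ j, |x j| = 1 → z j = 0) → dp a z = 0 → dp b z = 0 →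
        (∃ τ, Rnd x τ ∧ 0 < dp a τ ∧ 0 < dp b τ) ∨
        (∃ τ σ, Rnd x τ ∧ Rnd x σ ∧ dp b τ = 0 ∧ 0 < dp a τ ∧ dp a σ = 0 ∧ 0 < dp b σ) := by
      intro z hz hzx ha0 hb0
      obtain ⟨s, hs, hlt⟩ := move hx hz hzx
      rcases ih (x + s • z) (by omega) hs (by rw [dp_add, dp_smul, ha0, h1]; ring)
        (by rw [dp_add, dp_smul, hb0, h2]; ring) with ⟨τ, h, h'⟩ | ⟨τ, σ, h, h', h''⟩
      · exact Or.inl ⟨τ, rnd_move hzx h, h'⟩
      · exact Or.inr ⟨τ, σ, rnd_move hzx h, rnd_move hzx h', h''⟩
    by_cases hE : ∃ i j : Fin n, i ≠ j ∧ |x i| ≠ 1 ∧ |x j| ≠ 1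
    · obtain ⟨i, j, hij, hi, hj⟩ := hE
      by_cases hdet : a i * b j - a j * b i = 0
      · obtain ⟨z, hz, hzs, ha0, hb0⟩ := kernel_two (a := a) (b := b) hij hdet
        refine step z hz ?_ ha0 hb0
        intro k hk
        apply hzs
        · rintro rfl; exact hi hk
        · rintro rfl; exact hj hk
      · by_cases hT : ∃ k : Fin n, k ≠ i ∧ k ≠ j ∧ |x k| ≠ 1
        · obtain ⟨k, hki, hkj, hk⟩ := hT
          obtain ⟨z, hz, hzs, ha0, hb0⟩ := kernel_three (a := a) (b := b) hij hki.symm hkj.symm hdet
          refine step z hz ?_ ha0 hb0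
          intro l hl
          apply hzs
          · rintro rfl; exact hi hl
          · rintro rfl; exact hj hl
          · rintro rfl; exact hk hl
        · -- exactly two free coordinates
          push Not at hT
          left
          obtain ⟨σ, τ, hσ, hτ, p1, p2⟩ := two_free (x := x i) (y := x j) (s := a i) (t := a j)
            (u := b i) (v := b j) (lt_of_le_of_ne (hx i) hi) (lt_of_le_of_ne (hx j) hj) (ha i)
            (ha j) (hb i) (hb j) hdet
          have hval : ∀ c : Fin n → ℝ, dp c (Function.update (Function.update x i σ) j τ) =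
              dp c x + (σ - x i) * c i + (τ - x j) * c j := by
            intro c
            rw [dp_update, dp_update, Function.update_of_ne hij.symm]
            ring
          refine ⟨Function.update (Function.update x i σ) j τ, ?_, ?_, ?_⟩
          · intro k
            by_cases hkj : k = j
            · subst hkj
              refine ⟨by simpa using hτ, fun h => absurd h hj⟩
            · by_cases hki : k = i
              · subst hki
                rw [Function.update_of_ne hkj, Function.update_self]
                exact ⟨hσ, fun h => absurd h hi⟩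
              · rw [Function.update_of_ne hkj, Function.update_of_ne hki]
                exact ⟨(abs_eq zero_le_one).1 (hT k hki hkj), fun _ => rfl⟩
          · rw [hval, h1]; exact p1
          · rw [hval, h2]; exact p2
    · push Not at hE
      by_cases hF : ∃ i : Fin n, |x i| ≠ 1
      · -- exactly one free coordinate
        obtain ⟨i, hi⟩ := hF
        have hoth : ∀ k, k ≠ i → |x k| = 1 := fun k hk => hE i k (Ne.symm hk) hi
        have hx1 := abs_lt.1 (lt_of_le_of_ne (hx i) hi)
        have hr : ∀ s : ℝ, (s = 1 ∨ s = -1) → Rnd x (Function.update x i s) := by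
          intro s hs k
          by_cases hk : k = i
          · subst hk
            rw [Function.update_self]
            exact ⟨hs, fun h => absurd h hi⟩
          · rw [Function.update_of_ne hk]
            exact ⟨(abs_eq zero_le_one).1 (hoth k hk), fun _ => rfl⟩
        have va : ∀ s, dp a (Function.update x i s) = 1 + a i * (s - x i) := by
          intro s; rw [dp_update, h1]
        have vb : ∀ s, dp b (Function.update x i s) = 1 + b i * (s - x i) := by
          intro s; rw [dp_update, h2]
        have hai := abs_le.1 (ha i)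
        have hbi := abs_le.1 (hb i)
        by_cases c1 : 0 < dp a (Function.update x i 1) ∧ 0 < dp b (Function.update x i 1)
        · exact Or.inl ⟨_, hr 1 (Or.inl rfl), c1⟩
        by_cases c2 : 0 < dp a (Function.update x i (-1)) ∧ 0 < dp b (Function.update x i (-1))
        · exact Or.inl ⟨_, hr (-1) (Or.inr rfl), c2⟩
        right
        rw [va, vb] at c1 c2
        have m1 : 0 ≤ (1 - x i) * (1 + a i) := mul_nonneg (by linarith) (by linarith)
        have m2 : 0 ≤ (1 - x i) * (1 + b i) := mul_nonneg (by linarith) (by linarith)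
        have m3 : 0 ≤ (1 + x i) * (1 - a i) := mul_nonneg (by linarith) (by linarith)
        have m4 : 0 ≤ (1 + x i) * (1 - b i) := mul_nonneg (by linarith) (by linarith)
        rcases not_and_or.1 c1 with d1 | d1
        · -- `a` fails at `+`, so `b` fails at `-`
          have d1' : 1 + a i * (1 - x i) ≤ 0 := not_lt.1 d1
          have d2 : ¬ 0 < 1 + b i * (-1 - x i) := by
            intro h
            apply c2
            refine ⟨?_, h⟩
            have : a i * (1 - x i) < 0 := by linarith
            have : a i < 0 := by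
              by_contra hh
              have := mul_nonneg (not_lt.1 hh) (by linarith : 0 ≤ 1 - x i)
              linarith
            have := mul_pos_of_neg_of_neg this (by linarith : -1 - x i < 0)
            linarith
          have d2' : 1 + b i * (-1 - x i) ≤ 0 := not_lt.1 d2
          have hx0 : x i = 0 := by linarith
          rw [hx0] at d1' d2' m1 m4
          refine ⟨Function.update x i (-1), Function.update x i 1, hr _ (Or.inr rfl),
            hr _ (Or.inl rfl), ?_, ?_, ?_, ?_⟩
          · rw [vb, hx0]; linarith
          · rw [va, hx0]; linarith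
          · rw [va, hx0]; linarith
          · rw [vb, hx0]; linarith
        · have d1' : 1 + b i * (1 - x i) ≤ 0 := not_lt.1 d1
          have d2 : ¬ 0 < 1 + a i * (-1 - x i) := by
            intro h
            apply c2
            refine ⟨h, ?_⟩
            have : b i * (1 - x i) < 0 := by linarith
            have : b i < 0 := by
              by_contra hh
              have := mul_nonneg (not_lt.1 hh) (by linarith : 0 ≤ 1 - x i)
              linarith
            have := mul_pos_of_neg_of_neg this (by linarith : -1 - x i < 0)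
            linarith
          have d2' : 1 + a i * (-1 - x i) ≤ 0 := not_lt.1 d2
          have hx0 : x i = 0 := by linarith
          rw [hx0] at d1' d2' m2 m3
          refine ⟨Function.update x i 1, Function.update x i (-1), hr _ (Or.inl rfl),
            hr _ (Or.inr rfl), ?_, ?_, ?_, ?_⟩
          · rw [vb, hx0]; linarith
          · rw [va, hx0]; linarith
          · rw [va, hx0]; linarith
          · rw [vb, hx0]; linarith
      · push Not at hF
        left
        refine ⟨x, fun j => ⟨(abs_eq zero_le_one).1 (hF j), fun _ => rfl⟩, ?_, ?_⟩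
        · rw [h1]; norm_num
        · rw [h2]; norm_num

end Pool.Agent.Helper762_FF
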