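import Mathlib
import Pool.Agent.Helper762_FF.Round
import Pool.Agent.Y512.Reduce

set_option autoImplicit false

/-!
# Moving a point of the cube to a point with few free coordinates; illumination from the normals
-/

namespace Pool.Agent.Helper762_FF

open Finset Pool.Agent.Y512 Filter Topology

variable {n : ℕ}

/-- `dp` as a linear map in the first argument -/
def dpL (z : Fin n → ℝ) : (Fin n → ℝ) →ₗ[ℝ] ℝ where
  toFun a := dp a z
  map_add' a b := by
    simp only [dp, Pi.add_apply, add_mul, Finset.sum_add_distrib]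
  map_smul' t a := by
    simp only [dp, Pi.smul_apply, smul_eq_mul, RingHom.id_apply, Finset.mul_sum, mul_assoc]

theorem dp_zero_left (z : Fin n → ℝ) : dp 0 z = 0 := by simp [dp]

theorem dp_smul_left (t : ℝ) (a z : Fin n → ℝ) : dp (t • a) z = t * dp a z := by
  simp only [dp, Pi.smul_apply, smul_eq_mul, Finset.mul_sum, mul_assoc]

theorem dp_add_left (a b z : Fin n → ℝ) : dp (a + b) z = dp a z + dp b z := by
  simp only [dp, Pi.add_apply, add_mul, Finset.sum_add_distrib]

/-- Inside a subspace `W` of functionals of dimension `k`, a point of the cube can be moved,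
without changing the values of the functionals of `W`, to a point with at most `k` free
coordinates. -/
theorem move_sub (W : Submodule ℝ (Fin n → ℝ)) :
    ∀ (N : ℕ) (x : Fin n → ℝ), free x ≤ N → (∀ j, |x j| ≤ 1) →
    ∃ y : Fin n → ℝ, (∀ j, |y j| ≤ 1) ∧ free y ≤ Module.finrank ℝ W ∧
      (∀ w ∈ W, dp w y = dp w x) ∧ ∀ τ, Rnd y τ → Rnd x τ := by
  classical
  intro N
  induction N with
  | zero =>
    intro x hN hx
    exact ⟨x, hx, by omega, fun _ _ => rfl, fun _ h => h⟩
  | succ N ih =>
    intro x hN hx
    by_cases hle : free x ≤ Module.finrank ℝ W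
    · exact ⟨x, hx, hle, fun _ _ => rfl, fun _ h => h⟩
    · -- a vector supported on the free coordinates, killed by `W`
      let F : Finset (Fin n) := univ.filter fun j => |x j| ≠ 1
      let ext : (F → ℝ) →ₗ[ℝ] (Fin n → ℝ) :=
        { toFun := fun v j => if h : j ∈ F then v ⟨j, h⟩ else 0
          map_add' := by
            intro v w; funext j
            by_cases h : j ∈ F <;> simp [h]
          map_smul' := by
            intro t v; funext j
            by_cases h : j ∈ F <;> simp [h] }
      let f : (F → ℝ) →ₗ[ℝ] (Module.Dual ℝ W) :=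
        { toFun := fun v => (dpL (ext v)).comp W.subtype
          map_add' := by
            intro v w
            apply LinearMap.ext
            intro a
            simp only [LinearMap.comp_apply, LinearMap.add_apply, map_add]
            change dp _ (ext v + ext w) = dp _ (ext v) + dp _ (ext w)
            rw [dp_add]
          map_smul' := by
            intro t v
            apply LinearMap.ext
            intro a
            simp only [LinearMap.comp_apply, LinearMap.smul_apply, map_smul, RingHom.id_apply]
            change dp _ (t • ext v) = t * dp _ (ext v)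
            rw [dp_smul] }
      have hfin : Module.finrank ℝ (Module.Dual ℝ W) < Module.finrank ℝ (F → ℝ) := by
        rw [Subspace.dual_finrank_eq, Module.finrank_fintype_fun_eq_card, Fintype.card_coe]
        exact not_le.1 hle
      have hker := LinearMap.ker_ne_bot_of_finrank_lt (f := f) hfin
      obtain ⟨v, hv, hv0⟩ := (Submodule.ne_bot_iff _).1 hker
      let z := ext v
      have hz : z ≠ 0 := by
        intro h
        apply hv0
        funext j
        have h1 := congrFun h j.1
        have h2 : z j.1 = v j := by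
          simp only [z, ext, LinearMap.coe_mk, AddHom.coe_mk, dif_pos j.2]
        rw [h2] at h1
        exact h1
      have hzx : ∀ j, |x j| = 1 → z j = 0 := by
        intro j hj
        have : j ∉ F := by simp [F, hj]
        simp only [z, ext, LinearMap.coe_mk, AddHom.coe_mk, dif_neg this]
      have hzW : ∀ w ∈ W, dp w z = 0 := by
        intro w hw
        have h1 : f v = 0 := hv
        have h2 := congrArg (fun g : Module.Dual ℝ W => g ⟨w, hw⟩) h1
        exact h2
      obtain ⟨s, hs, hlt⟩ := move hx hz hzx
      obtain ⟨y, hy1, hy2, hy3, hy4⟩ := ih (x + s • z) (by omega) hs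
      refine ⟨y, hy1, hy2, fun w hw => ?_, fun τ hτ => rnd_move hzx (hy4 τ hτ)⟩
      rw [hy3 w hw, dp_add, dp_smul, hzW w hw, mul_zero, add_zero]

/-- every linear functional is `dp` with a vector -/
theorem exists_dp (f : (Fin n → ℝ) →L[ℝ] ℝ) : ∃ u : Fin n → ℝ, ∀ y, f y = dp u y := by
  refine ⟨fun j => f (Pi.single j 1), fun y => ?_⟩
  have hy : y = ∑ j, y j • (Pi.single j 1 : Fin n → ℝ) := by
    funext k
    simp [Finset.sum_apply, Pi.single_apply]
  conv_lhs => rw [hy]
  rw [map_sum, dp]
  refine Finset.sum_congr rfl fun j _ => ?_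
  rw [map_smul, smul_eq_mul, mul_comm]

/-- a direction which has negative product with all the outer normals illuminates -/
theorem lit_of_normals {M : Set (Fin n → ℝ)} (hM : Convex ℝ M) (hint : (interior M).Nonempty)
    {x t : Fin n → ℝ} (hx : x ∈ M)
    (h : ∀ u : Fin n → ℝ, u ≠ 0 → (∀ y ∈ M, dp u y ≤ dp u x) → dp u t < 0) : Lit M t x := by
  by_contra hno
  have hno' : ∀ τ : ℝ, 0 < τ → x + τ • t ∉ interior M := fun τ hτ hh => hno ⟨τ, hτ, hh⟩
  let Rr : Set (Fin n → ℝ) := (fun τ : ℝ => x + τ • t) '' Set.Ioi 0
  have hRc : Convex ℝ Rr := by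
    rintro _ ⟨a, ha, rfl⟩ _ ⟨b, hb, rfl⟩ s r hs hr hsr
    have ha' : 0 < a := ha
    have hb' : 0 < b := hb
    refine ⟨s * a + r * b, ?_, ?_⟩
    · have : 0 < s * a + r * b := by
        rcases hs.lt_or_eq with h | h
        · have := mul_pos h ha'
          have := mul_nonneg hr hb'.le
          linarith
        · have : r = 1 := by linarith
          rw [← h, this]; linarith
      exact this
    · change x + (s * a + r * b) • t = s • (x + a • t) + r • (x + b • t)
      have : x = (s + r) • x := by rw [hsr, one_smul]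
      conv_lhs => rw [this]
      simp only [add_smul, smul_add, mul_smul]
      abel
  have hdisj : Disjoint (interior M) Rr := by
    rw [Set.disjoint_left]
    rintro _ ha ⟨τ, hτ, rfl⟩
    exact hno' τ hτ ha
  obtain ⟨f, s, hf1, hf2⟩ := geometric_hahn_banach_open hM.interior isOpen_interior hRc hdisj
  obtain ⟨u, hu⟩ := exists_dp f
  have hcl : ∀ y ∈ M, f y ≤ s := by
    intro y hy
    have h1 : y ∈ closure (interior M) := by
      rw [hM.closure_interior_eq_closure_of_nonempty_interior hint]
      exact subset_closure hy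
    exact closure_minimal (fun z hz => (hf1 z hz).le) (isClosed_le f.continuous continuous_const) h1
  have hray : ∀ τ : ℝ, 0 < τ → s ≤ f x + τ * f t := by
    intro τ hτ
    have := hf2 _ ⟨τ, hτ, rfl⟩
    rwa [map_add, map_smul, smul_eq_mul] at this
  have hsx : s ≤ f x := by
    by_contra hlt
    rw [not_le] at hlt
    rcases le_or_gt (f t) 0 with h0 | h0
    · have := hray 1 one_pos
      linarith
    · have := hray ((s - f x) / (2 * f t)) (div_pos (by linarith) (by linarith))
      have h2 : (s - f x) / (2 * f t) * f t = (s - f x) / 2 := by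
        field_simp
      rw [h2] at this
      linarith
  have hx' : f x = s := le_antisymm (hcl x hx) hsx
  have hu0 : u ≠ 0 := by
    rintro rfl
    obtain ⟨c, hc⟩ := hint
    have h1 := hf1 c hc
    rw [← hx', hu, hu, dp_zero_left, dp_zero_left] at h1
    exact lt_irrefl _ h1
  have h1 := h u hu0 (fun y hy => by rw [← hu, ← hu, hx']; exact hcl y hy)
  have h2 := hray 1 one_pos
  rw [← hx', hu t] at h2
  linarith

/-- the cube -/
def Cube (n : ℕ) : Set (Fin n → ℝ) := {y | ∀ j, |y j| ≤ 1}

theorem isOpen_cube : IsOpen {y : Fin n → ℝ | ∀ j, |y j| < 1} := by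
  have : {y : Fin n → ℝ | ∀ j, |y j| < 1} = ⋂ j, {y | |y j| < 1} := by
    ext y; simp
  rw [this]
  exact isOpen_iInter_of_finite fun j => isOpen_lt (by fun_prop) continuous_const

/-- illumination of the intersection of the cube and a convex set by a sign vector -/
theorem lit_inter {M : Set (Fin n → ℝ)} (hM : Convex ℝ M) {x τ : Fin n → ℝ}
    (hxC : x ∈ Cube n) (hx : x ∈ M) (hτ : Rnd x τ) (hl : Lit M (-τ) x) :
    Lit (Cube n ∩ M) (-τ) x := by
  obtain ⟨ε0, hε0, hi⟩ := hl
  have e1 : ∀ᶠ ε : ℝ in 𝓝[>] 0, ∀ j, |x j - ε * τ j| < 1 := by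
    refine Filter.eventually_all.2 fun j => ?_
    by_cases hj : |x j| = 1
    · have e := (hτ j).2 hj
      have h1 : ∀ᶠ ε : ℝ in 𝓝[>] 0, ε < 1 :=
        eventually_nhdsWithin_of_eventually_nhds (eventually_lt_nhds one_pos)
      filter_upwards [h1, self_mem_nhdsWithin] with ε hε h0
      have h0' : 0 < ε := h0
      rw [← e, abs_lt]
      rcases (hτ j).1 with h | h <;> rw [h] <;> constructor <;> linarith
    · apply eventually_nhdsWithin_of_eventually_nhds
      have hc : Continuous fun ε : ℝ => |x j - ε * τ j| := by fun_prop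
      have h1 : |x j| < 1 := lt_of_le_of_ne (hxC j) hj
      exact (hc.tendsto 0).eventually_lt_const (by simpa using h1)
  have e2 : ∀ᶠ ε : ℝ in 𝓝[>] 0, ε < ε0 :=
    eventually_nhdsWithin_of_eventually_nhds (eventually_lt_nhds hε0)
  obtain ⟨ε, ⟨h1, h2⟩, hε⟩ := ((e1.and e2).and self_mem_nhdsWithin).exists
  have hε' : 0 < ε := hε
  refine ⟨ε, hε', ?_⟩
  rw [interior_inter]
  constructor
  · have hsub : {y : Fin n → ℝ | ∀ j, |y j| < 1} ⊆ Cube n := fun y hy j => (hy j).le
    apply interior_maximal hsub isOpen_cube
    intro j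
    have : (x + ε • -τ) j = x j - ε * τ j := by simp; ring
    rw [this]
    exact h1 j
  · have := hM.combo_interior_self_mem_interior hi hx (a := ε / ε0) (b := 1 - ε / ε0)
      (by positivity) (by rw [sub_nonneg, div_le_one hε0]; exact h2.le) (by ring)
    convert this using 1
    rw [smul_add, smul_smul, div_mul_cancel₀ _ hε0.ne', sub_smul, one_smul]
    abel

/-- the conclusion, for a convex set `M` such that every point of `K` has a good rounding -/
theorem covN_of_round {M : Set (Fin n → ℝ)} (hM : Convex ℝ M) (hcl : IsClosed M)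
    (hint : (interior M).Nonempty)
    (h : ∀ x ∈ Cube n ∩ M, ∃ τ, Rnd x τ ∧
      ∀ u : Fin n → ℝ, u ≠ 0 → (∀ y ∈ M, dp u y ≤ dp u x) → 0 < dp u τ) :
    CovN (2 ^ n) (Cube n ∩ M) := by
  classical
  let S : Finset (Fin n → ℝ) :=
    (univ : Finset (Fin n → Bool)).image fun c => -(fun j => sg (c j))
  have hScard : S.card ≤ 2 ^ n := by
    refine Finset.card_image_le.trans ?_
    simp
  have hmemS : ∀ τ : Fin n → ℝ, (∀ j, τ j = 1 ∨ τ j = -1) → -τ ∈ S := by
    intro τ hτ
    refine Finset.mem_image.2 ⟨fun j => decide (τ j = 1), mem_univ _, ?_⟩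
    congr 1
    funext j
    rcases hτ j with h | h
    · simp [sg, h]
    · have h0 : ¬ ((-1 : ℝ) = 1) := by norm_num
      simp [sg, h, h0]
  have hCconv : Convex ℝ (Cube n) := by
    intro x hx y hy s t hs ht hst j
    have h1 := hx j
    have h2 := hy j
    rw [abs_le] at *
    simp only [Pi.add_apply, Pi.smul_apply, smul_eq_mul]
    constructor <;> nlinarith
  have hCcl : IsClosed (Cube n) := by
    have : Cube n = ⋂ j, {y | |y j| ≤ 1} := by
      ext y; simp [Cube]
    rw [this]
    exact isClosed_iInter fun j => isClosed_le (by fun_prop) continuous_const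
  have hcomp : IsCompact (Cube n ∩ M) := by
    apply Metric.isCompact_of_isClosed_isBounded (hCcl.inter hcl)
    apply (Metric.isBounded_closedBall (x := (0 : Fin n → ℝ)) (r := 1)).subset
    intro y hy
    rw [mem_closedBall_zero_iff, pi_norm_le_iff_of_nonneg zero_le_one]
    intro j
    rw [Real.norm_eq_abs]
    exact hy.1 j
  have hlit : ∀ x ∈ Cube n ∩ M, ∃ t ∈ S, Lit (Cube n ∩ M) t x := by
    intro x hx
    obtain ⟨τ, hτ, hu⟩ := h x hx
    refine ⟨-τ, hmemS τ fun j => (hτ j).1, lit_inter hM hx.1 hx.2 hτ ?_⟩
    apply lit_of_normals hM hint hx.2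
    intro u hu0 hun
    rw [dp_neg_right]
    have := hu u hu0 hun
    linarith
  obtain ⟨T, hT, hcov⟩ := cover_of_lit (hCconv.inter hM) hcomp S hlit
  exact ⟨T, hT.trans hScard, hcov⟩

end Pool.Agent.Helper762_FF
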