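import Mathlib
import Pool.Agent.Helper762_FF.Move

set_option autoImplicit false

/-!
# Rounding for many functionals with small coefficients
-/

namespace Pool.Agent.Helper762_FF

open Finset MeasureTheory ProbabilityTheory

variable {n : ℕ}

/-- Hoeffding's inequality for a variable with two values at distance two -/
theorem two_point {x : ℝ} (hx : |x| ≤ 1) (s : ℝ) :
    (1 + x) / 2 * Real.exp (-(s * (1 - x))) + (1 - x) / 2 * Real.exp (s * (1 + x)) ≤
      Real.exp (s ^ 2 / 2) := by
  have h := abs_le.1 hx
  let p : ℝ := (1 + x) / 2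
  let q : ℝ := (1 - x) / 2
  have hp : 0 ≤ p := by simp only [p]; linarith
  have hq : 0 ≤ q := by simp only [q]; linarith
  have hpq : p + q = 1 := by simp only [p, q]; ring
  let μ : Measure ℝ := ENNReal.ofReal p • Measure.dirac (1 - x) +
    ENNReal.ofReal q • Measure.dirac (-(1 + x))
  have hint : ∀ g : ℝ → ℝ, ∫ t, g t ∂μ = p * g (1 - x) + q * g (-(1 + x)) := by
    intro g
    have i1 : Integrable g (ENNReal.ofReal p • Measure.dirac (1 - x)) :=
      (integrable_dirac (by simp [enorm_lt_top])).smul_measure ENNReal.ofReal_ne_top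
    have i2 : Integrable g (ENNReal.ofReal q • Measure.dirac (-(1 + x))) :=
      (integrable_dirac (by simp [enorm_lt_top])).smul_measure ENNReal.ofReal_ne_top
    rw [integral_add_measure i1 i2, integral_smul_measure, integral_smul_measure, integral_dirac,
      integral_dirac, ENNReal.toReal_ofReal hp, ENNReal.toReal_ofReal hq, smul_eq_mul, smul_eq_mul]
  have hprob : IsProbabilityMeasure μ := by
    constructor
    simp only [μ, Measure.add_apply, Measure.smul_apply, measure_univ, smul_eq_mul, mul_one]
    rw [← ENNReal.ofReal_add hp hq, hpq, ENNReal.ofReal_one]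
  have hae : ∀ᵐ t ∂μ, id t ∈ Set.Icc (-(1 + x)) (1 - x) := by
    rw [ae_iff]
    have hm : MeasurableSet {t : ℝ | ¬ id t ∈ Set.Icc (-(1 + x)) (1 - x)} := by
      exact (measurableSet_Icc (a := -(1 + x)) (b := 1 - x)).compl
    simp only [μ, Measure.add_apply, Measure.smul_apply, smul_eq_mul]
    rw [Measure.dirac_apply' _ hm, Measure.dirac_apply' _ hm]
    have e1 : (1 - x) ∉ {t : ℝ | ¬ id t ∈ Set.Icc (-(1 + x)) (1 - x)} := by
      intro hh
      exact hh ⟨by simp only [id]; linarith, le_refl _⟩
    have e2 : (-(1 + x)) ∉ {t : ℝ | ¬ id t ∈ Set.Icc (-(1 + x)) (1 - x)} := by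
      intro hh
      exact hh ⟨le_refl _, by simp only [id]; linarith⟩
    rw [Set.indicator_of_notMem e1, Set.indicator_of_notMem e2]
    simp
  have hmean : μ[id] = 0 := by
    rw [hint]
    simp only [p, q, id]
    ring
  have hH := hasSubgaussianMGF_of_mem_Icc_of_integral_eq_zero (μ := μ) (X := id)
    measurable_id.aemeasurable hae hmean
  have h1 := hH.mgf_le (-s)
  rw [mgf, hint] at h1
  have h2 : (((‖(1 - x) - (-(1 + x))‖₊ / 2) ^ 2 : NNReal) : ℝ) = 1 := by
    have : (1 - x) - (-(1 + x)) = 2 := by ring
    rw [this]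
    simp
  rw [h2] at h1
  simp only [id] at h1
  have e1 : -s * (1 - x) = -(s * (1 - x)) := by ring
  have e2 : -s * -(1 + x) = s * (1 + x) := by ring
  have e3 : 1 * (-s) ^ 2 / 2 = s ^ 2 / 2 := by ring
  rw [e1, e2, e3] at h1
  exact h1

/-- the set of the coordinates that are not `1` or `-1` -/
noncomputable def fs (y : Fin n → ℝ) : Finset (Fin n) := univ.filter fun j => |y j| ≠ 1

theorem fs_update {y : Fin n → ℝ} {j : Fin n} {s : ℝ} (hs : s = 1 ∨ s = -1) :
    fs (Function.update y j s) = (fs y).erase j := by
  classical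
  ext k
  simp only [fs, mem_filter, mem_univ, true_and, mem_erase]
  by_cases hk : k = j
  · subst hk
    rw [Function.update_self]
    simp only [ne_eq, not_true_eq_false, false_and, iff_false, not_not]
    rcases hs with h | h <;> rw [h] <;> simp
  · rw [Function.update_of_ne hk]
    simp [hk]

/-- **Rounding for many functionals.** -/
theorem round_exp {ι : Type*} (I : Finset ι) (a : ι → Fin n → ℝ) (lam : ℝ) :
    ∀ (F : ℕ) (y : Fin n → ℝ), free y ≤ F → (∀ j, |y j| ≤ 1) →
    ∃ τ, Rnd y τ ∧ ∑ i ∈ I, Real.exp (-(lam * dp (a i) τ)) ≤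
      ∑ i ∈ I, Real.exp (-(lam * dp (a i) y) + lam ^ 2 / 2 * ∑ j ∈ fs y, a i j ^ 2) := by
  classical
  intro F
  induction F with
  | zero =>
    intro y hF hy
    have h0 : fs y = ∅ := Finset.card_eq_zero.1 (Nat.le_zero.1 hF)
    have hall : ∀ j, |y j| = 1 := by
      intro j
      by_contra h
      have : j ∈ fs y := by simp [fs, h]
      rw [h0] at this
      simp at this
    refine ⟨y, fun j => ⟨(abs_eq zero_le_one).1 (hall j), fun _ => rfl⟩, ?_⟩
    simp [h0]
  | succ F ih =>
    intro y hF hy
    by_cases hE : fs y = ∅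
    · have hall : ∀ j, |y j| = 1 := by
        intro j
        by_contra h
        have : j ∈ fs y := by simp [fs, h]
        rw [hE] at this
        simp at this
      refine ⟨y, fun j => ⟨(abs_eq zero_le_one).1 (hall j), fun _ => rfl⟩, ?_⟩
      simp [hE]
    · obtain ⟨j, hj⟩ := Finset.nonempty_iff_ne_empty.2 hE
      have hjf : |y j| ≠ 1 := by simpa [fs] using hj
      have hjl := abs_le.1 (hy j)
      let G : (Fin n → ℝ) → ℝ := fun z =>
        ∑ i ∈ I, Real.exp (-(lam * dp (a i) z) + lam ^ 2 / 2 * ∑ k ∈ fs z, a i k ^ 2)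
      have hfree : ∀ s : ℝ, (s = 1 ∨ s = -1) → free (Function.update y j s) ≤ F := by
        intro s hs
        have : free (Function.update y j s) = ((fs y).erase j).card := by
          rw [← fs_update hs]; rfl
        rw [this, Finset.card_erase_of_mem hj]
        have : (fs y).card = free y := rfl
        omega
      have hup : ∀ s : ℝ, (s = 1 ∨ s = -1) → ∀ k, |Function.update y j s k| ≤ 1 := by
        intro s hs k
        by_cases hk : k = j
        · subst hk
          rw [Function.update_self]
          rcases hs with h | h <;> rw [h] <;> simp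
        · rw [Function.update_of_ne hk]; exact hy k
      have hr : ∀ (s : ℝ) (τ : Fin n → ℝ), Rnd (Function.update y j s) τ → Rnd y τ := by
        intro s τ h k
        refine ⟨(h k).1, fun hk => ?_⟩
        have hkj : k ≠ j := by
          rintro rfl; exact hjf hk
        have := (h k).2
        rw [Function.update_of_ne hkj] at this
        exact this hk
      -- averaging
      have havg : (1 + y j) / 2 * G (Function.update y j 1) +
          (1 - y j) / 2 * G (Function.update y j (-1)) ≤ G y := by
        simp only [G]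
        rw [Finset.mul_sum, Finset.mul_sum, ← Finset.sum_add_distrib]
        refine Finset.sum_le_sum fun i _ => ?_
        rw [fs_update (Or.inl rfl), fs_update (Or.inr rfl), dp_update, dp_update]
        have hsum : ∑ k ∈ fs y, a i k ^ 2 = a i j ^ 2 + ∑ k ∈ (fs y).erase j, a i k ^ 2 :=
          (Finset.add_sum_erase _ _ hj).symm
        rw [hsum]
        set B : ℝ := -(lam * dp (a i) y) + lam ^ 2 / 2 * ∑ k ∈ (fs y).erase j, a i k ^ 2 with hB
        have e1 : -(lam * (dp (a i) y + a i j * (1 - y j))) +
            lam ^ 2 / 2 * ∑ k ∈ (fs y).erase j, a i k ^ 2 =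
            B + -((lam * a i j) * (1 - y j)) := by rw [hB]; ring
        have e2 : -(lam * (dp (a i) y + a i j * (-1 - y j))) +
            lam ^ 2 / 2 * ∑ k ∈ (fs y).erase j, a i k ^ 2 =
            B + (lam * a i j) * (1 + y j) := by rw [hB]; ring
        have e3 : -(lam * dp (a i) y) + lam ^ 2 / 2 *
            (a i j ^ 2 + ∑ k ∈ (fs y).erase j, a i k ^ 2) = B + (lam * a i j) ^ 2 / 2 := by
          rw [hB]; ring
        rw [e1, e2, e3, Real.exp_add B, Real.exp_add B, Real.exp_add B]
        have h1 := two_point (hy j) (lam * a i j)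
        have h2 := Real.exp_pos B
        calc (1 + y j) / 2 * (Real.exp B * Real.exp (-(lam * a i j * (1 - y j)))) +
            (1 - y j) / 2 * (Real.exp B * Real.exp (lam * a i j * (1 + y j))) =
            Real.exp B * ((1 + y j) / 2 * Real.exp (-(lam * a i j * (1 - y j))) +
              (1 - y j) / 2 * Real.exp (lam * a i j * (1 + y j))) := by ring
          _ ≤ Real.exp B * Real.exp ((lam * a i j) ^ 2 / 2) :=
              mul_le_mul_of_nonneg_left h1 h2.le
      have hor : G (Function.update y j 1) ≤ G y ∨ G (Function.update y j (-1)) ≤ G y := by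
        by_contra hcon
        push Not at hcon
        obtain ⟨c1, c2⟩ := hcon
        have hlt : |y j| < 1 := lt_of_le_of_ne (hy j) hjf
        rw [abs_lt] at hlt
        have d1 : 0 < (1 + y j) / 2 * (G (Function.update y j 1) - G y) :=
          mul_pos (by linarith) (by linarith)
        have d2 : 0 < (1 - y j) / 2 * (G (Function.update y j (-1)) - G y) :=
          mul_pos (by linarith) (by linarith)
        linarith
      rcases hor with h | h
      · obtain ⟨τ, hτ, hle⟩ := ih _ (hfree 1 (Or.inl rfl)) (hup 1 (Or.inl rfl))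
        exact ⟨τ, hr _ _ hτ, hle.trans h⟩
      · obtain ⟨τ, hτ, hle⟩ := ih _ (hfree (-1) (Or.inr rfl)) (hup (-1) (Or.inr rfl))
        exact ⟨τ, hr _ _ hτ, hle.trans h⟩

end Pool.Agent.Helper762_FF
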