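import Mathlib
import Pool.Agent.Helper762_FF.Hoeff

set_option autoImplicit false

/-!
# The cube cut by hyperplanes which meet

Pointwise rounding for the three kinds of normal cones.
-/

namespace Pool.Agent.Helper762_FF

open Finset Pool.Agent.Y512

variable {n : ℕ}

/-- a linear combination with nonnegative coefficients of vectors with positive products -/
theorem comb_pos {m : ℕ} {a : Fin m → Fin n → ℝ} {τ : Fin n → ℝ}
    (h : ∀ i, a i ≠ 0 → 0 < dp (a i) τ) {c : Fin m → ℝ} (hc : ∀ i, 0 ≤ c i)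
    (hne : ∑ i, c i • a i ≠ 0) : 0 < dp (∑ i, c i • a i) τ := by
  classical
  have hlin : ∀ s : Finset (Fin m), dp (∑ i ∈ s, c i • a i) τ = ∑ i ∈ s, c i * dp (a i) τ := by
    intro s
    induction s using Finset.induction_on with
    | empty => simp [dp_zero_left]
    | insert i s hi ih => rw [Finset.sum_insert hi, Finset.sum_insert hi, dp_add_left,
        dp_smul_left, ih]
  rw [hlin]
  have hnn : ∀ i, 0 ≤ c i * dp (a i) τ := by
    intro i
    by_cases hi : a i = 0
    · rw [hi, dp_zero_left, mul_zero]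
    · exact mul_nonneg (hc i) (h i hi).le
  obtain ⟨i, hi, hi0⟩ : ∃ i, a i ≠ 0 ∧ c i ≠ 0 := by
    by_contra hcon
    push Not at hcon
    apply hne
    refine Finset.sum_eq_zero fun i _ => ?_
    by_cases hi : a i = 0
    · rw [hi, smul_zero]
    · rw [hcon i hi, zero_smul]
  refine Finset.sum_pos' (fun i _ => hnn i) ⟨i, mem_univ _, ?_⟩
  exact mul_pos (lt_of_le_of_ne (hc i) hi0.symm) (h i hi)

/-- If all but one of the weights `α j` always have a sum below one, then a convex weighting with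
`∑ α j * w j ≥ 1` has `∑ (1 - w j) < 1`. -/
theorem weight_lemma {ι : Type*} [DecidableEq ι] (F : Finset ι) (α w : ι → ℝ)
    (hα : ∀ j ∈ F, 0 ≤ α j) (hlt : ∀ i ∈ F, ∑ j ∈ F.erase i, α j < 1)
    (hw1 : ∀ j ∈ F, w j ≤ 1) (hs : 1 ≤ ∑ j ∈ F, α j * w j) :
    ∑ j ∈ F, (1 - w j) < 1 := by
  by_contra hcon
  rw [not_lt] at hcon
  obtain ⟨j0, hj0, hpos⟩ : ∃ j ∈ F, 0 < 1 - w j := by
    by_contra hno
    push Not at hno
    have := Finset.sum_nonpos hno
    linarith
  have hS : ∀ i ∈ F, ∑ j ∈ F, α j < 1 + α i := by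
    intro i hi
    have := hlt i hi
    rw [← Finset.add_sum_erase _ _ hi]
    linarith
  set s : ℝ := ∑ j ∈ F, α j with hsdef
  have h1 : ∑ j ∈ F, α j * (1 - w j) ≤ s - 1 := by
    have : ∑ j ∈ F, α j * (1 - w j) = s - ∑ j ∈ F, α j * w j := by
      rw [hsdef, ← Finset.sum_sub_distrib]
      exact Finset.sum_congr rfl fun j _ => by ring
    rw [this]
    linarith
  have h2 : (s - 1) * ∑ j ∈ F, (1 - w j) < ∑ j ∈ F, α j * (1 - w j) := by
    rw [Finset.mul_sum]
    apply Finset.sum_lt_sum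
    · intro j hj
      have := hS j hj
      exact mul_le_mul_of_nonneg_right (by linarith) (by linarith [hw1 j hj])
    · refine ⟨j0, hj0, ?_⟩
      have := hS j0 hj0
      exact mul_lt_mul_of_pos_right (by linarith) hpos
  have h3 : 0 ≤ ∑ j ∈ F, α j * (1 - w j) :=
    Finset.sum_nonneg fun j hj => mul_nonneg (hα j hj) (by linarith [hw1 j hj])
  have h4 : 0 ≤ s - 1 := h3.trans h1
  have h5 : s - 1 ≤ (s - 1) * ∑ j ∈ F, (1 - w j) := le_mul_of_one_le_right h4 hcon
  linarith

/-- the nearest sign vector -/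
noncomputable def near (y : Fin n → ℝ) : Fin n → ℝ := fun j => if 0 ≤ y j then 1 else -1

theorem near_cases (y : Fin n → ℝ) (j : Fin n) : near y j = 1 ∨ near y j = -1 := by
  by_cases h : 0 ≤ y j <;> simp [near, h]

theorem rnd_near (y : Fin n → ℝ) : Rnd y (near y) := by
  intro j
  refine ⟨near_cases y j, ?_⟩
  intro hj
  rcases (abs_eq zero_le_one).1 hj with h | h
  · simp [near, h]
  · have h0 : ¬ ((1 : ℝ) ≤ 0) := by norm_num
    simp [near, h, h0]

theorem near_sub (y : Fin n → ℝ) (j : Fin n) : near y j - y j = near y j * (1 - |y j|) := by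
  by_cases h : 0 ≤ y j
  · simp [near, h, abs_of_nonneg h]
  · simp only [near, h, if_false]
    rw [not_le] at h
    rw [abs_of_neg h]; ring

/-- the product with the nearest sign vector -/
theorem dp_near (a y : Fin n → ℝ) :
    dp a (near y) = dp a y + ∑ j ∈ fs y, a j * near y j * (1 - |y j|) := by
  have e : dp a (near y) = dp a y + dp a (near y - y) := by rw [dp_sub]; ring
  rw [e]
  congr 1
  simp only [dp, Pi.sub_apply]
  symm
  have : ∑ j ∈ fs y, a j * near y j * (1 - |y j|) = ∑ j ∈ fs y, a j * (near y j - y j) :=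
    Finset.sum_congr rfl fun j _ => by rw [near_sub]; ring
  rw [this]
  apply Finset.sum_subset (Finset.subset_univ _)
  intro j _ hj
  have : |y j| = 1 := by simpa [fs] using hj
  rw [(rnd_near y j).2 this, sub_self, mul_zero]

/-- normal cones with `m` generators, sparse sign vectors with at most `m - 1` nonzero entries -/
theorem round_A {x : Fin n → ℝ} (hx : ∀ j, |x j| ≤ 1) {m : ℕ} (a : Fin m → Fin n → ℝ)
    (ha : ∀ i, ∀ F : Finset (Fin n), F.card < m → ∑ j ∈ F, |a i j| < dp (a i) x) :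
    ∃ τ, Rnd x τ ∧ ∀ c : Fin m → ℝ, (∀ i, 0 ≤ c i) → ∑ i, c i • a i ≠ 0 →
      0 < dp (∑ i, c i • a i) τ := by
  classical
  -- normalise
  have hpos : ∀ i, 0 < dp (a i) x := by
    intro i
    have := ha i ∅ (by rw [Finset.card_empty]; exact i.pos)
    simpa using this
  let W : Submodule ℝ (Fin n → ℝ) := Submodule.span ℝ (Set.range a)
  have hW : Module.finrank ℝ W ≤ m := by
    have := finrank_range_le_card (R := ℝ) a
    rw [Fintype.card_fin] at this
    exact this
  have hmem : ∀ i, a i ∈ W := fun i => Submodule.subset_span ⟨i, rfl⟩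
  obtain ⟨y, hy1, hy2, hy3, hy4⟩ := move_sub W _ x le_rfl hx
  suffices h : ∃ τ, Rnd y τ ∧ ∀ i, 0 < dp (a i) τ by
    obtain ⟨τ, h1, h2⟩ := h
    exact ⟨τ, hy4 τ h1, fun c hc hne => comb_pos (fun i _ => h2 i) hc hne⟩
  by_contra hno
  push Not at hno
  -- the nearest sign vector and its neighbours fail
  obtain ⟨i0, hi0⟩ := hno _ (rnd_near y)
  let fl : Fin n → Fin n → ℝ := fun k => Function.update (near y) k (-(near y k))
  have hfl : ∀ k ∈ fs y, Rnd y (fl k) := by
    intro k hk j
    by_cases h : j = k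
    · subst h
      simp only [fl, Function.update_self]
      refine ⟨?_, fun h => absurd h (by simpa [fs] using hk)⟩
      rcases near_cases y j with h | h <;> rw [h] <;> simp
    · simp only [fl, Function.update_of_ne h]
      exact rnd_near y j
  have hdfl : ∀ i k, dp (a i) (fl k) = dp (a i) (near y) - 2 * (a i k * near y k) := by
    intro i k
    simp only [fl]
    rw [dp_update]; ring
  -- normalised quantities
  let p : Fin n → ℝ := fun j => 1 - |y j|
  have hp0 : ∀ j, 0 ≤ p j := fun j => by have := hy1 j; simp only [p]; linarith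
  have hp1 : ∀ j, p j ≤ 1 := fun j => by have := abs_nonneg (y j); simp only [p]; linarith
  let α : Fin m → Fin n → ℝ := fun i j => -(a i j * near y j) / dp (a i) x
  have hval : ∀ i, dp (a i) (near y) = dp (a i) x * (1 - ∑ j ∈ fs y, α i j * p j) := by
    intro i
    rw [dp_near, hy3 _ (hmem i), mul_sub, mul_one, sub_eq_add_neg, Finset.mul_sum,
      ← Finset.sum_neg_distrib]
    congr 1
    refine Finset.sum_congr rfl fun j _ => ?_
    simp only [α, p]
    have := (hpos i).ne'
    field_simp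
  have hvalfl : ∀ i k, dp (a i) (fl k) =
      dp (a i) x * (1 - ∑ j ∈ fs y, α i j * p j + 2 * α i k) := by
    intro i k
    rw [hdfl, hval]
    simp only [α]
    have := (hpos i).ne'
    field_simp
    ring
  have habs : ∀ i j, |α i j| = |a i j| / dp (a i) x := by
    intro i j
    simp only [α]
    rw [abs_div, abs_neg, abs_mul, abs_of_pos (hpos i)]
    have : |near y j| = 1 := by rcases near_cases y j with h | h <;> rw [h] <;> simp
    rw [this, mul_one]
  have hsp : ∀ i, ∀ F : Finset (Fin n), F.card < m → ∑ j ∈ F, |α i j| < 1 := by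
    intro i F hF
    have h1 := ha i F hF
    simp only [habs]
    rw [← Finset.sum_div, div_lt_one (hpos i)]
    exact h1
  have hle : ∀ i, ∀ w : Fin n → ℝ, (∀ j, 0 ≤ w j) → (∀ j, w j ≤ 1) → ∀ F : Finset (Fin n),
      ∑ j ∈ F, α i j * w j ≤ ∑ j ∈ F, |α i j| := by
    intro i w hw0 hw1 F
    refine Finset.sum_le_sum fun j _ => ?_
    calc α i j * w j ≤ |α i j| * w j := mul_le_mul_of_nonneg_right (le_abs_self _) (hw0 j)
      _ ≤ |α i j| := mul_le_of_le_one_right (abs_nonneg _) (hw1 j)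
  -- the first functional
  have hs0 : 1 ≤ ∑ j ∈ fs y, α i0 j * p j := by
    rw [hval] at hi0
    by_contra hlt
    rw [not_le] at hlt
    have := mul_pos (hpos i0) (sub_pos.2 hlt)
    linarith
  have hcardF : (fs y).card = m := by
    have h1 : (fs y).card = free y := rfl
    have h2 : (fs y).card ≤ m := by omega
    by_contra hne
    have h3 := hsp i0 (fs y) (lt_of_le_of_ne h2 hne)
    have h4 := hle i0 p hp0 hp1 (fs y)
    linarith
  have herase : ∀ k ∈ fs y, ((fs y).erase k).card < m := by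
    intro k hk
    rw [Finset.card_erase_of_mem hk, hcardF]
    have : 0 < (fs y).card := Finset.card_pos.2 ⟨k, hk⟩
    omega
  -- the neighbours
  have hkill : ∀ k ∈ fs y, ∃ i, i ≠ i0 ∧ 1 - ∑ j ∈ fs y, α i j * p j + 2 * α i k ≤ 0 := by
    intro k hk
    obtain ⟨i, hi⟩ := hno _ (hfl k hk)
    rw [hvalfl] at hi
    have hi' : 1 - ∑ j ∈ fs y, α i j * p j + 2 * α i k ≤ 0 := by
      by_contra hlt
      rw [not_le] at hlt
      have := mul_pos (hpos i) hlt
      linarith
    refine ⟨i, ?_, hi'⟩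
    rintro rfl
    have h1 := hsp i ((fs y).erase k) (herase k hk)
    have h2 := hle i p hp0 hp1 ((fs y).erase k)
    rw [← Finset.add_sum_erase _ _ hk] at hs0 hi'
    have h3 : 0 < α i k * p k := by linarith
    have h4 : 0 < α i k := by
      by_contra hh
      have := mul_nonneg (neg_nonneg.2 (not_lt.1 hh)) (hp0 k)
      linarith
    have h5 : α i k * p k ≤ α i k := mul_le_of_le_one_right h4.le (hp1 k)
    linarith
  have : Nonempty (Fin m) := ⟨i0⟩
  choose! g hg1 hg2 using hkill
  -- two neighbours are killed by the same functional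
  obtain ⟨k1, hk1, k2, hk2, hk12, hgg⟩ : ∃ k1 ∈ fs y, ∃ k2 ∈ fs y, k1 ≠ k2 ∧ g k1 = g k2 := by
    apply Finset.exists_ne_map_eq_of_card_lt_of_maps_to (t := univ.erase i0)
    · rw [Finset.card_erase_of_mem (mem_univ _), Finset.card_univ, Fintype.card_fin, hcardF]
      have := i0.pos
      omega
    · intro k hk
      exact Finset.mem_erase.2 ⟨hg1 k hk, mem_univ _⟩
  set i := g k1 with hi
  have q1 : 1 - ∑ j ∈ fs y, α i j * p j + 2 * α i k1 ≤ 0 := hg2 k1 hk1
  have q2 : 1 - ∑ j ∈ fs y, α i j * p j + 2 * α i k2 ≤ 0 := by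
    have := hg2 k2 hk2
    rw [← hgg] at this
    exact this
  let w : Fin n → ℝ := fun j => if j = k1 ∨ j = k2 then 1 - p j else p j
  have hw0 : ∀ j, 0 ≤ w j := by
    intro j
    by_cases h : j = k1 ∨ j = k2
    · simp only [w, h, if_true]; linarith [hp1 j]
    · simp only [w, h, if_false]; exact hp0 j
  have hw1 : ∀ j, w j ≤ 1 := by
    intro j
    by_cases h : j = k1 ∨ j = k2
    · simp only [w, h, if_true]; linarith [hp0 j]
    · simp only [w, h, if_false]; exact hp1 j
  -- splitting off the two terms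
  have hsplit : ∀ f : Fin n → ℝ, ∑ j ∈ fs y, f j =
      f k1 + f k2 + ∑ j ∈ ((fs y).erase k1).erase k2, f j := by
    intro f
    rw [← Finset.add_sum_erase _ _ hk1,
      ← Finset.add_sum_erase _ _ (Finset.mem_erase.2 ⟨hk12.symm, hk2⟩)]
    ring
  have hwk1 : w k1 = 1 - p k1 := by simp [w]
  have hwk2 : w k2 = 1 - p k2 := by simp [w]
  have hwr : ∀ j ∈ ((fs y).erase k1).erase k2, w j = p j := by
    intro j hj
    have h1 := Finset.mem_erase.1 hj
    have h2 := Finset.mem_erase.1 h1.2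
    have : ¬ (j = k1 ∨ j = k2) := by
      rintro (h | h)
      · exact h2.1 h
      · exact h1.1 h
    simp only [w, this, if_false]
  have hsw : 1 ≤ ∑ j ∈ fs y, |α i j| * w j := by
    rw [hsplit] at q1 q2 ⊢
    rw [hwk1, hwk2, Finset.sum_congr rfl fun j hj => by rw [hwr j hj]]
    have h1 : ∑ j ∈ ((fs y).erase k1).erase k2, α i j * p j ≤
        ∑ j ∈ ((fs y).erase k1).erase k2, |α i j| * p j :=
      Finset.sum_le_sum fun j _ => mul_le_mul_of_nonneg_right (le_abs_self _) (hp0 j)
    have h2 : -α i k1 * (1 - p k1) ≤ |α i k1| * (1 - p k1) :=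
      mul_le_mul_of_nonneg_right (neg_le_abs _) (by linarith [hp1 k1])
    have h3 : -α i k2 * (1 - p k2) ≤ |α i k2| * (1 - p k2) :=
      mul_le_mul_of_nonneg_right (neg_le_abs _) (by linarith [hp1 k2])
    linarith
  have r1 := weight_lemma (fs y) (fun j => |α i j|) w (fun j _ => abs_nonneg _)
    (fun k hk => hsp i _ (herase k hk)) (fun j _ => hw1 j) hsw
  have r2 := weight_lemma (fs y) (fun j => |α i0 j|) p (fun j _ => abs_nonneg _)
    (fun k hk => hsp i0 _ (herase k hk)) (fun j _ => hp1 j)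
    (hs0.trans (Finset.sum_le_sum fun j _ =>
      mul_le_mul_of_nonneg_right (le_abs_self _) (hp0 j)))
  rw [hsplit] at r1 r2
  rw [hwk1, hwk2, Finset.sum_congr rfl fun j hj => by rw [hwr j hj]] at r1
  have r3 : 0 ≤ ∑ j ∈ ((fs y).erase k1).erase k2, (1 - p j) :=
    Finset.sum_nonneg fun j _ => by linarith [hp1 j]
  linarith

/-- normal cones with `m` generators -/
theorem round_B {x : Fin n → ℝ} (hx : ∀ j, |x j| ≤ 1) {m : ℕ} (a : Fin m → Fin n → ℝ)
    (t : Fin m → ℝ) (ht : ∀ i, 0 < t i) (hsum : ∑ i, Real.exp (-(t i ^ 2 / 2)) < 1)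
    (ha : ∀ i, ∀ F : Finset (Fin n), F.card ≤ m → t i * √(∑ j ∈ F, a i j ^ 2) ≤ dp (a i) x) :
    ∃ τ, Rnd x τ ∧ ∀ c : Fin m → ℝ, (∀ i, 0 ≤ c i) → ∑ i, c i • a i ≠ 0 →
      0 < dp (∑ i, c i • a i) τ := by
  classical
  let W : Submodule ℝ (Fin n → ℝ) := Submodule.span ℝ (Set.range a)
  have hW : Module.finrank ℝ W ≤ m := by
    have := finrank_range_le_card (R := ℝ) a
    rw [Fintype.card_fin] at this
    exact this
  have hmem : ∀ i, a i ∈ W := fun i => Submodule.subset_span ⟨i, rfl⟩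
  obtain ⟨y, hy1, hy2, hy3, hy4⟩ := move_sub W _ x le_rfl hx
  let I : Finset (Fin m) := univ.filter fun i => a i ≠ 0
  -- the products are positive
  have hpos : ∀ i ∈ I, 0 < dp (a i) x := by
    intro i hi
    have hi' : a i ≠ 0 := by simpa [I] using hi
    obtain ⟨j, hj⟩ := Function.ne_iff.1 hi'
    have h1 := ha i {j} (by
      rw [Finset.card_singleton]
      exact Nat.one_le_iff_ne_zero.2 (by rintro rfl; exact i.elim0))
    rw [Finset.sum_singleton, Real.sqrt_sq_eq_abs] at h1
    have h2 := mul_pos (ht i) (abs_pos.2 hj)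
    linarith
  let b : Fin m → Fin n → ℝ := fun i => (t i ^ 2 / dp (a i) x) • a i
  obtain ⟨τ, hτ, hle⟩ := round_exp I b 1 _ y le_rfl hy1
  have hcard : (fs y).card ≤ m := by
    have : (fs y).card = free y := rfl
    omega
  have hterm : ∀ i ∈ I, Real.exp (-(1 * dp (b i) y) + 1 ^ 2 / 2 * ∑ j ∈ fs y, b i j ^ 2) ≤
      Real.exp (-(t i ^ 2 / 2)) := by
    intro i hi
    rw [Real.exp_le_exp]
    have hp := hpos i hi
    have e1 : dp (b i) y = t i ^ 2 := by
      simp only [b]
      rw [dp_smul_left, hy3 _ (hmem i), div_mul_cancel₀ _ hp.ne']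
    have e2 : ∑ j ∈ fs y, b i j ^ 2 = (t i ^ 2 / dp (a i) x) ^ 2 * ∑ j ∈ fs y, a i j ^ 2 := by
      simp only [b, Pi.smul_apply, smul_eq_mul, mul_pow, Finset.mul_sum]
    have h1 := ha i (fs y) hcard
    have h0 : 0 ≤ ∑ j ∈ fs y, a i j ^ 2 := Finset.sum_nonneg fun j _ => sq_nonneg _
    have h2 : t i ^ 2 * ∑ j ∈ fs y, a i j ^ 2 ≤ dp (a i) x ^ 2 := by
      have := pow_le_pow_left₀ (mul_nonneg (ht i).le (Real.sqrt_nonneg _)) h1 2
      rw [mul_pow, Real.sq_sqrt h0] at this
      exact this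
    have h3 : (t i ^ 2 / dp (a i) x) ^ 2 * ∑ j ∈ fs y, a i j ^ 2 ≤ t i ^ 2 := by
      rw [div_pow, div_mul_eq_mul_div, div_le_iff₀ (by positivity)]
      have := mul_le_mul_of_nonneg_left h2 (sq_nonneg (t i))
      nlinarith
    rw [e1, e2]
    linarith
  have hlt : ∑ i ∈ I, Real.exp (-(1 * dp (b i) τ)) < 1 := by
    refine lt_of_le_of_lt (hle.trans (Finset.sum_le_sum hterm)) (lt_of_le_of_lt ?_ hsum)
    exact Finset.sum_le_sum_of_subset_of_nonneg (Finset.subset_univ _)
      fun i _ _ => (Real.exp_pos _).le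
  have hone : ∀ i ∈ I, 0 < dp (a i) τ := by
    intro i hi
    have h1 : Real.exp (-(1 * dp (b i) τ)) < 1 :=
      lt_of_le_of_lt (Finset.single_le_sum
        (f := fun i => Real.exp (-(1 * dp (b i) τ))) (fun i _ => (Real.exp_pos _).le) hi) hlt
    rw [Real.exp_lt_one_iff] at h1
    have h2 : 0 < dp (b i) τ := by linarith
    simp only [b] at h2
    rw [dp_smul_left] at h2
    have hp := hpos i hi
    exact (mul_pos_iff_of_pos_left (div_pos (pow_pos (ht i) 2) hp)).1 h2
  exact ⟨τ, hy4 τ hτ, fun c hc hne => comb_pos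
    (fun i hi => hone i (by simp [I, hi])) hc hne⟩

/-- normal cones of dimension at most `k` -/
theorem round_C {x : Fin n → ℝ} (hx : ∀ j, |x j| ≤ 1) (W : Submodule ℝ (Fin n → ℝ)) {k : ℕ}
    (hk : Module.finrank ℝ W ≤ k) :
    ∃ τ, Rnd x τ ∧ ∀ u ∈ W, (∀ F : Finset (Fin n), F.card ≤ k → ∑ j ∈ F, |u j| < dp u x) →
      0 < dp u τ := by
  classical
  obtain ⟨y, hy1, hy2, hy3, hy4⟩ := move_sub W _ x le_rfl hx
  let τ : Fin n → ℝ := fun j => if 0 ≤ y j then 1 else -1
  have hτ : Rnd y τ := by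
    intro j
    constructor
    · by_cases h : 0 ≤ y j <;> simp [τ, h]
    · intro hj
      rcases (abs_eq zero_le_one).1 hj with h | h
      · simp [τ, h]
      · have h0 : ¬ ((1 : ℝ) ≤ 0) := by norm_num
        simp [τ, h, h0]
  refine ⟨τ, hy4 τ hτ, ?_⟩
  intro u hu hF
  have hcard : (fs y).card ≤ k := by
    have : (fs y).card = free y := rfl
    omega
  have h1 := hF (fs y) hcard
  have h2 : dp u τ = dp u y + dp u (τ - y) := by rw [dp_sub]; ring
  have h3 : |dp u (τ - y)| ≤ ∑ j ∈ fs y, |u j| := by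
    have e : dp u (τ - y) = ∑ j ∈ fs y, u j * (τ j - y j) := by
      simp only [dp, Pi.sub_apply]
      symm
      apply Finset.sum_subset (Finset.subset_univ _)
      intro j _ hj
      have : |y j| = 1 := by simpa [fs] using hj
      rw [(hτ j).2 this, sub_self, mul_zero]
    rw [e]
    refine (Finset.abs_sum_le_sum_abs _ _).trans (Finset.sum_le_sum fun j _ => ?_)
    rw [abs_mul]
    have h4 : |τ j - y j| ≤ 1 := by
      have := abs_le.1 (hy1 j)
      by_cases h : 0 ≤ y j
      · simp only [τ, h, if_true]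
        rw [abs_le]; constructor <;> linarith
      · simp only [τ, h, if_false]
        rw [not_le] at h
        rw [abs_le]; constructor <;> linarith
    exact mul_le_of_le_one_right (abs_nonneg _) h4
  have h5 := (abs_le.1 h3).1
  rw [h2, hy3 u hu]
  linarith

end Pool.Agent.Helper762_FF
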