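import Mathlib
import Pool.Agent.Helper762_FF.Cuts

set_option autoImplicit false

/-!
# The cube cut by hyperplanes which meet, in Euclidean space
-/

namespace Pool.Agent.Helper762_FF

open Finset Pool.Agent.Y512

variable {n : ℕ}

/-- the coordinates -/
noncomputable def Ph (n : ℕ) : EuclideanSpace ℝ (Fin n) ≃L[ℝ] (Fin n → ℝ) :=
  EuclideanSpace.equiv (Fin n) ℝ

theorem ph_apply (x : EuclideanSpace ℝ (Fin n)) (j : Fin n) : Ph n x j = x j := rfl

theorem inner_ph (v x : EuclideanSpace ℝ (Fin n)) : inner ℝ v x = dp (Ph n v) (Ph n x) := by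
  rw [PiLp.inner_apply]
  simp only [dp]
  refine Finset.sum_congr rfl fun j _ => ?_
  simp [Ph, mul_comm]

/-- the cube in Euclidean space and a closed convex set -/
theorem covN_euclid {M : Set (EuclideanSpace ℝ (Fin n))} (hM : Convex ℝ M) (hcl : IsClosed M)
    (hint : (interior M).Nonempty)
    (h : ∀ x ∈ M, (∀ j, |x j| ≤ 1) → ∃ τ : Fin n → ℝ, Rnd (Ph n x) τ ∧
      ∀ u : EuclideanSpace ℝ (Fin n), u ≠ 0 → (∀ y ∈ M, inner ℝ u y ≤ inner ℝ u x) →
        0 < dp (Ph n u) τ) :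
    CovN (2 ^ n) {x : EuclideanSpace ℝ (Fin n) | (∀ j, |x j| ≤ 1) ∧ x ∈ M} := by
  apply covN_of_image (Ph n) 0
  let M' : Set (Fin n → ℝ) := (Ph n) '' M
  have hM'eq : M' = (Ph n).symm ⁻¹' M := ContinuousLinearEquiv.image_eq_preimage_symm (Ph n) M
  have himg : (fun x => Ph n x + 0) ''
      {x : EuclideanSpace ℝ (Fin n) | (∀ j, |x j| ≤ 1) ∧ x ∈ M} = Cube n ∩ M' := by
    ext y
    constructor
    · rintro ⟨x, hx, rfl⟩
      simp only [add_zero]
      exact ⟨hx.1, x, hx.2, rfl⟩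
    · rintro ⟨h1, x, hx, rfl⟩
      exact ⟨x, ⟨h1, hx⟩, by simp⟩
  rw [himg]
  have hM' : Convex ℝ M' := hM.linear_image (Ph n).toLinearMap
  have hcl' : IsClosed M' := by
    rw [hM'eq]
    exact hcl.preimage (Ph n).symm.continuous
  have hint' : (interior M').Nonempty := by
    obtain ⟨z, hz⟩ := hint
    refine ⟨Ph n z, ?_⟩
    rw [hM'eq]
    have : (Ph n).symm ⁻¹' (interior M) ⊆ interior ((Ph n).symm ⁻¹' M) :=
      preimage_interior_subset_interior_preimage (Ph n).symm.continuous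
    apply this
    simpa using hz
  refine covN_of_round hM' hcl' hint' ?_
  rintro y ⟨hy1, x, hx, rfl⟩
  obtain ⟨τ, hτ, hu⟩ := h x hx hy1
  refine ⟨τ, hτ, ?_⟩
  intro u hu0 hun
  have h1 := hu ((Ph n).symm u) (by
    intro h0
    apply hu0
    have := congrArg (Ph n) h0
    simpa using this) (by
    intro z hz
    rw [inner_ph, inner_ph]
    simp only [ContinuousLinearEquiv.apply_symm_apply]
    exact hun _ ⟨z, hz, rfl⟩)
  simpa using h1

end Pool.Agent.Helper762_FF
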