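import Mathlib
import Pool.Agent.Helper762_FF.Round
import Pool.Agent.Y512.Reduce

set_option autoImplicit false

/-!
# Illumination of the intersection of the cube with two slabs
-/

namespace Pool.Agent.Helper762_FF

open Finset Pool.Agent.Y512 Filter Topology

variable {n : ℕ}

theorem continuous_dp (a : Fin n → ℝ) : Continuous fun x : Fin n → ℝ => dp a x := by
  simp only [dp]; fun_prop

/-- rounding for one functional -/
theorem round_one {a x : Fin n → ℝ} (hx : ∀ j, |x j| ≤ 1) (h : dp a x = 1) :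
    ∃ τ, Rnd x τ ∧ 0 < dp a τ := by
  classical
  refine ⟨fun j => if |x j| = 1 then x j else if 0 ≤ a j then 1 else -1, fun j => ⟨?_, ?_⟩, ?_⟩
  · by_cases h1 : |x j| = 1
    · simp only [if_pos h1]; exact (abs_eq zero_le_one).1 h1
    · simp only [if_neg h1]
      split_ifs <;> simp
  · intro h1; simp only [if_pos h1]
  · have : dp a x ≤ dp a (fun j => if |x j| = 1 then x j else if 0 ≤ a j then 1 else -1) := by
      simp only [dp]
      refine Finset.sum_le_sum fun j _ => ?_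
      have h2 := abs_le.1 (hx j)
      split_ifs with h3 h4
      · exact le_rfl
      · nlinarith
      · nlinarith
    linarith

theorem rnd_exists (x : Fin n → ℝ) : ∃ τ, Rnd x τ := by
  classical
  refine ⟨fun j => if |x j| = 1 then x j else 1, fun j => ⟨?_, ?_⟩⟩
  · by_cases h1 : |x j| = 1
    · simp only [if_pos h1]; exact (abs_eq zero_le_one).1 h1
    · simp only [if_neg h1]; simp
  · intro h1; simp only [if_pos h1]

/-- the step along a direction of the right sign stays in the open interval -/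
theorem ev_abs {c w : ℝ} (h : |c| < 1 ∨ (c = 1 ∧ 0 < w) ∨ (c = -1 ∧ w < 0)) :
    ∀ᶠ ε : ℝ in 𝓝[>] 0, |c - ε * w| < 1 := by
  rcases h with h | ⟨rfl, hw⟩ | ⟨rfl, hw⟩
  · apply eventually_nhdsWithin_of_eventually_nhds
    have hc : Continuous fun ε : ℝ => |c - ε * w| := by fun_prop
    have : ∀ᶠ ε : ℝ in 𝓝 0, |c - ε * w| < 1 :=
      (hc.tendsto 0).eventually_lt_const (by simpa using h)
    exact this
  · have h1 : ∀ᶠ ε : ℝ in 𝓝[>] 0, ε < 1 / w :=
      eventually_nhdsWithin_of_eventually_nhds (eventually_lt_nhds (by positivity))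
    filter_upwards [h1, self_mem_nhdsWithin] with ε hε h0
    have h0' : 0 < ε := h0
    have h2 : 0 < ε * w := mul_pos h0' hw
    have h3 : ε * w < 1 := by
      have := (lt_div_iff₀ hw).1 hε
      exact this
    rw [abs_lt]; constructor <;> linarith
  · have h1 : ∀ᶠ ε : ℝ in 𝓝[>] 0, ε < 1 / (-w) :=
      eventually_nhdsWithin_of_eventually_nhds
        (eventually_lt_nhds (one_div_pos.2 (by linarith)))
    filter_upwards [h1, self_mem_nhdsWithin] with ε hε h0
    have h0' : 0 < ε := h0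
    have h2 : ε * w < 0 := mul_neg_of_pos_of_neg h0' hw
    have h3 : ε * (-w) < 1 := (lt_div_iff₀ (by linarith)).1 hε
    rw [abs_lt]; constructor <;> linarith

/-- the intersection of the cube with two slabs -/
def K2 (a b : Fin n → ℝ) : Set (Fin n → ℝ) := {y | (∀ j, |y j| ≤ 1) ∧ |dp a y| ≤ 1 ∧ |dp b y| ≤ 1}

theorem isOpen_inner (a b : Fin n → ℝ) :
    IsOpen {y : Fin n → ℝ | (∀ j, |y j| < 1) ∧ |dp a y| < 1 ∧ |dp b y| < 1} := by
  have h1 : IsOpen {y : Fin n → ℝ | ∀ j, |y j| < 1} := by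
    have : {y : Fin n → ℝ | ∀ j, |y j| < 1} = ⋂ j, {y | |y j| < 1} := by
      ext y; simp
    rw [this]
    exact isOpen_iInter_of_finite fun j => isOpen_lt (by fun_prop) continuous_const
  exact h1.inter ((isOpen_lt (continuous_dp a).abs continuous_const).inter
    (isOpen_lt (continuous_dp b).abs continuous_const))

/-- a criterion for the illumination of a point of `K2 a b` -/
theorem lit_K2 {a b x u : Fin n → ℝ} (h1 : ∀ j, |x j| < 1 ∨ (x j = 1 ∧ 0 < u j) ∨ (x j = -1 ∧ u j < 0))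
    (h2 : |dp a x| < 1 ∨ (dp a x = 1 ∧ 0 < dp a u) ∨ (dp a x = -1 ∧ dp a u < 0))
    (h3 : |dp b x| < 1 ∨ (dp b x = 1 ∧ 0 < dp b u) ∨ (dp b x = -1 ∧ dp b u < 0)) :
    Lit (K2 a b) (-u) x := by
  have e1 : ∀ᶠ ε : ℝ in 𝓝[>] 0, ∀ j, |x j - ε * u j| < 1 :=
    Filter.eventually_all.2 fun j => ev_abs (h1 j)
  have e2 := ev_abs h2
  have e3 := ev_abs h3
  obtain ⟨ε, ⟨⟨p1, p2⟩, p3⟩, hε⟩ := ((e1.and e2).and e3).and self_mem_nhdsWithin |>.exists
  refine ⟨ε, hε, ?_⟩
  have hsub : {y : Fin n → ℝ | (∀ j, |y j| < 1) ∧ |dp a y| < 1 ∧ |dp b y| < 1} ⊆ K2 a b := by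
    rintro y ⟨q1, q2, q3⟩
    exact ⟨fun j => (q1 j).le, q2.le, q3.le⟩
  apply interior_maximal hsub (isOpen_inner a b)
  have hx : ∀ j, (x + ε • -u) j = x j - ε * u j := by
    intro j; simp; ring
  have hd : ∀ c, dp c (x + ε • -u) = dp c x - ε * dp c u := by
    intro c; rw [dp_add, dp_smul, dp_neg_right]; ring
  refine ⟨fun j => ?_, ?_, ?_⟩
  · rw [hx]; exact p1 j
  · rw [hd]; exact p2
  · rw [hd]; exact p3

/-- the direction attached to a sign vector: the sign vector itself, up to a small perturbation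
which decides the signs of the functionals that vanish -/
theorem dir_exists {a b τ : Fin n → ℝ} (hτ : ∀ j, τ j = 1 ∨ τ j = -1) :
    ∃ u : Fin n → ℝ, (∀ j, 0 < u j * τ j) ∧ (0 < dp a τ → 0 < dp a u) ∧
      (dp a τ < 0 → dp a u < 0) ∧ (0 < dp b τ → 0 < dp b u) ∧ (dp b τ < 0 → dp b u < 0) ∧
      (b ≠ 0 → dp b τ = 0 → 0 < dp a τ → 0 < dp b u) ∧
      (b ≠ 0 → dp b τ = 0 → dp a τ < 0 → dp b u < 0) ∧
      (a ≠ 0 → dp a τ = 0 → 0 < dp b τ → dp a u < 0) ∧
      (a ≠ 0 → dp a τ = 0 → dp b τ < 0 → 0 < dp a u) := by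
  classical
  have hself : ∀ c : Fin n → ℝ, c ≠ 0 → 0 < dp c c := by
    intro c hc
    have h1 : ∀ j ∈ (univ : Finset (Fin n)), 0 ≤ c j * c j := fun j _ => mul_self_nonneg _
    rcases (Finset.sum_nonneg h1).lt_or_eq with h | h
    · exact h
    · exfalso; apply hc
      funext j
      have := (Finset.sum_eq_zero_iff_of_nonneg h1).1 h.symm j (mem_univ j)
      exact mul_self_eq_zero.1 this
  -- the perturbed direction for a given vector `v`
  have key : ∀ v : Fin n → ℝ, ∀ᶠ ε : ℝ in 𝓝[>] 0, (∀ j, 0 < (τ + ε • v) j * τ j) ∧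
      (0 < dp a τ → 0 < dp a (τ + ε • v)) ∧ (dp a τ < 0 → dp a (τ + ε • v) < 0) ∧
      (0 < dp b τ → 0 < dp b (τ + ε • v)) ∧ (dp b τ < 0 → dp b (τ + ε • v) < 0) := by
    intro v
    have hc : Continuous fun ε : ℝ => τ + ε • v := by fun_prop
    have hz : τ + (0 : ℝ) • v = τ := by simp
    have t1 : ∀ j, ∀ᶠ ε : ℝ in 𝓝[>] 0, 0 < (τ + ε • v) j * τ j := by
      intro j
      apply eventually_nhdsWithin_of_eventually_nhds
      have hcj : Continuous fun ε : ℝ => (τ + ε • v) j * τ j := by fun_prop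
      apply (hcj.tendsto 0).eventually_const_lt
      rw [hz]
      rcases hτ j with h | h <;> rw [h] <;> norm_num
    have t2 : ∀ c : Fin n → ℝ, ∀ᶠ ε : ℝ in 𝓝[>] 0, 0 < dp c τ → 0 < dp c (τ + ε • v) := by
      intro c
      by_cases h : 0 < dp c τ
      · have : ∀ᶠ ε : ℝ in 𝓝[>] 0, 0 < dp c (τ + ε • v) := by
          apply eventually_nhdsWithin_of_eventually_nhds
          have hcj : Continuous fun ε : ℝ => dp c (τ + ε • v) := (continuous_dp c).comp hc
          apply (hcj.tendsto 0).eventually_const_lt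
          rw [hz]; exact h
        exact this.mono fun ε hε _ => hε
      · exact Filter.Eventually.of_forall fun ε hh => absurd hh h
    have t3 : ∀ c : Fin n → ℝ, ∀ᶠ ε : ℝ in 𝓝[>] 0, dp c τ < 0 → dp c (τ + ε • v) < 0 := by
      intro c
      by_cases h : dp c τ < 0
      · have : ∀ᶠ ε : ℝ in 𝓝[>] 0, dp c (τ + ε • v) < 0 := by
          apply eventually_nhdsWithin_of_eventually_nhds
          have hcj : Continuous fun ε : ℝ => dp c (τ + ε • v) := (continuous_dp c).comp hc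
          apply (hcj.tendsto 0).eventually_lt_const
          rw [hz]; exact h
        exact this.mono fun ε hε _ => hε
      · exact Filter.Eventually.of_forall fun ε hh => absurd hh h
    filter_upwards [Filter.eventually_all.2 t1, t2 a, t3 a, t2 b, t3 b] with ε h1 h2 h3 h4 h5
    exact ⟨h1, h2, h3, h4, h5⟩
  by_cases hb : dp b τ = 0 ∧ dp a τ ≠ 0
  · obtain ⟨hb0, ha0⟩ := hb
    rcases lt_or_gt_of_ne ha0 with ha | ha
    · obtain ⟨ε, ⟨h1, h2, h3, h4, h5⟩, hε⟩ := ((key (-b)).and self_mem_nhdsWithin).exists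
      have hε' : 0 < ε := hε
      refine ⟨τ + ε • -b, h1, h2, h3, h4, h5, fun _ _ h => absurd h (not_lt.2 ha.le),
        fun hb1 _ _ => ?_, fun _ h => absurd h ha0, fun _ h => absurd h ha0⟩
      rw [dp_add, hb0, dp_smul, dp_neg_right]
      have := mul_pos hε' (hself b hb1)
      linarith
    · obtain ⟨ε, ⟨h1, h2, h3, h4, h5⟩, hε⟩ := ((key b).and self_mem_nhdsWithin).exists
      have hε' : 0 < ε := hε
      refine ⟨τ + ε • b, h1, h2, h3, h4, h5, fun hb1 _ _ => ?_,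
        fun _ _ h => absurd h (not_lt.2 ha.le), fun _ h => absurd h ha0, fun _ h => absurd h ha0⟩
      rw [dp_add, hb0, dp_smul]
      have := mul_pos hε' (hself b hb1)
      linarith
  · by_cases ha : dp a τ = 0 ∧ dp b τ ≠ 0
    · obtain ⟨ha0, hb0⟩ := ha
      rcases lt_or_gt_of_ne hb0 with hb1 | hb1
      · obtain ⟨ε, ⟨h1, h2, h3, h4, h5⟩, hε⟩ := ((key a).and self_mem_nhdsWithin).exists
        have hε' : 0 < ε := hε
        refine ⟨τ + ε • a, h1, h2, h3, h4, h5, fun _ h => absurd h hb0, fun _ h => absurd h hb0,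
          fun _ _ h => absurd h (not_lt.2 hb1.le), fun ha1 _ _ => ?_⟩
        rw [dp_add, ha0, dp_smul]
        have := mul_pos hε' (hself a ha1)
        linarith
      · obtain ⟨ε, ⟨h1, h2, h3, h4, h5⟩, hε⟩ := ((key (-a)).and self_mem_nhdsWithin).exists
        have hε' : 0 < ε := hε
        refine ⟨τ + ε • -a, h1, h2, h3, h4, h5, fun _ h => absurd h hb0, fun _ h => absurd h hb0,
          fun ha1 _ _ => ?_, fun _ _ h => absurd h (not_lt.2 hb1.le)⟩
        rw [dp_add, ha0, dp_smul, dp_neg_right]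
        have := mul_pos hε' (hself a ha1)
        linarith
    · obtain ⟨ε, ⟨h1, h2, h3, h4, h5⟩, hε⟩ := ((key 0).and self_mem_nhdsWithin).exists
      refine ⟨τ + ε • 0, h1, h2, h3, h4, h5, ?_, ?_, ?_, ?_⟩
      · intro _ h h'
        exact absurd ⟨h, h'.ne'⟩ hb
      · intro _ h h'
        exact absurd ⟨h, h'.ne⟩ hb
      · intro _ h h'
        exact absurd ⟨h, h'.ne'⟩ ha
      · intro _ h h'
        exact absurd ⟨h, h'.ne⟩ ha

/-- the intersection of the cube with two slabs given by functionals with coefficients of absolute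
value at most one is covered by `2 ^ n` translates of its interior -/
theorem covN_K2 (a b : Fin n → ℝ) (ha : ∀ j, |a j| ≤ 1) (hb : ∀ j, |b j| ≤ 1) :
    CovN (2 ^ n) (K2 a b) := by
  classical
  have hex : ∀ τ : Fin n → ℝ, ∃ u : Fin n → ℝ, (∀ j, τ j = 1 ∨ τ j = -1) →
      (∀ j, 0 < u j * τ j) ∧ (0 < dp a τ → 0 < dp a u) ∧
      (dp a τ < 0 → dp a u < 0) ∧ (0 < dp b τ → 0 < dp b u) ∧ (dp b τ < 0 → dp b u < 0) ∧
      (b ≠ 0 → dp b τ = 0 → 0 < dp a τ → 0 < dp b u) ∧
      (b ≠ 0 → dp b τ = 0 → dp a τ < 0 → dp b u < 0) ∧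
      (a ≠ 0 → dp a τ = 0 → 0 < dp b τ → dp a u < 0) ∧
      (a ≠ 0 → dp a τ = 0 → dp b τ < 0 → 0 < dp a u) := by
    intro τ
    by_cases h : ∀ j, τ j = 1 ∨ τ j = -1
    · obtain ⟨u, hu⟩ := dir_exists (a := a) (b := b) h
      exact ⟨u, fun _ => hu⟩
    · exact ⟨0, fun h' => absurd h' h⟩
  choose U hU using hex
  let S : Finset (Fin n → ℝ) :=
    (univ : Finset (Fin n → Bool)).image fun c => -(U fun j => sg (c j))
  have hScard : S.card ≤ 2 ^ n := by
    refine Finset.card_image_le.trans ?_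
    simp
  have hmemS : ∀ τ : Fin n → ℝ, (∀ j, τ j = 1 ∨ τ j = -1) → -(U τ) ∈ S := by
    intro τ hτ
    refine Finset.mem_image.2 ⟨fun j => decide (τ j = 1), mem_univ _, ?_⟩
    congr 2
    funext j
    rcases hτ j with h | h
    · simp [sg, h]
    · have h0 : ¬ ((-1 : ℝ) = 1) := by norm_num
      simp [sg, h, h0]
  have hconv : Convex ℝ (K2 a b) := by
    intro x hx y hy s t hs ht hst
    have key : ∀ p q : ℝ, |p| ≤ 1 → |q| ≤ 1 → |s * p + t * q| ≤ 1 := by
      intro p q hp hq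
      rw [abs_le] at *
      constructor <;> nlinarith
    refine ⟨fun j => ?_, ?_, ?_⟩
    · exact key _ _ (hx.1 j) (hy.1 j)
    · rw [dp_add, dp_smul, dp_smul]; exact key _ _ hx.2.1 hy.2.1
    · rw [dp_add, dp_smul, dp_smul]; exact key _ _ hx.2.2 hy.2.2
  have hcomp : IsCompact (K2 a b) := by
    apply Metric.isCompact_of_isClosed_isBounded
    · have h1 : IsClosed {y : Fin n → ℝ | ∀ j, |y j| ≤ 1} := by
        have : {y : Fin n → ℝ | ∀ j, |y j| ≤ 1} = ⋂ j, {y | |y j| ≤ 1} := by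
          ext y; simp
        rw [this]
        exact isClosed_iInter fun j => isClosed_le (by fun_prop) continuous_const
      exact h1.inter ((isClosed_le (continuous_dp a).abs continuous_const).inter
        (isClosed_le (continuous_dp b).abs continuous_const))
    · apply (Metric.isBounded_closedBall (x := (0 : Fin n → ℝ)) (r := 1)).subset
      intro y hy
      rw [mem_closedBall_zero_iff, pi_norm_le_iff_of_nonneg zero_le_one]
      intro j
      rw [Real.norm_eq_abs]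
      exact hy.1 j
  suffices hlit : ∀ x ∈ K2 a b, ∃ t ∈ S, Lit (K2 a b) t x by
    obtain ⟨T, hT, hcov⟩ := cover_of_lit hconv hcomp S hlit
    exact ⟨T, hT.trans hScard, hcov⟩
  intro x hx
  obtain ⟨hx1, hxa, hxb⟩ := hx
  -- from a rounding with the right signs to the illumination
  have fin : ∀ τ : Fin n → ℝ, Rnd x τ →
      (|dp a x| < 1 ∨ (dp a x = 1 ∧ 0 < dp a (U τ)) ∨ (dp a x = -1 ∧ dp a (U τ) < 0)) →
      (|dp b x| < 1 ∨ (dp b x = 1 ∧ 0 < dp b (U τ)) ∨ (dp b x = -1 ∧ dp b (U τ) < 0)) →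
      ∃ t ∈ S, Lit (K2 a b) t x := by
    intro τ hτ h2 h3
    have hs : ∀ j, τ j = 1 ∨ τ j = -1 := fun j => (hτ j).1
    refine ⟨-(U τ), hmemS τ hs, lit_K2 ?_ h2 h3⟩
    intro j
    have hpos := (hU τ hs).1 j
    rcases (hx1 j).lt_or_eq with h | h
    · exact Or.inl h
    · right
      have e := (hτ j).2 h
      rcases hs j with h' | h'
      · left
        rw [h'] at hpos e
        exact ⟨e.symm, by linarith⟩
      · right
        rw [h'] at hpos e
        exact ⟨e.symm, by linarith⟩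
  rcases hxa.lt_or_eq with hal | hae
  · rcases hxb.lt_or_eq with hbl | hbe
    · obtain ⟨τ, hτ⟩ := rnd_exists x
      exact fin τ hτ (Or.inl hal) (Or.inl hbl)
    · rcases (abs_eq zero_le_one).1 hbe with hb1 | hb1
      · obtain ⟨τ, hτ, hp⟩ := round_one hx1 hb1
        have hs : ∀ j, τ j = 1 ∨ τ j = -1 := fun j => (hτ j).1
        exact fin τ hτ (Or.inl hal) (Or.inr (Or.inl ⟨hb1, (hU τ hs).2.2.2.1 hp⟩))
      · obtain ⟨τ, hτ, hp⟩ := round_one (a := -b) hx1 (by rw [dp_neg, hb1]; ring)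
        have hs : ∀ j, τ j = 1 ∨ τ j = -1 := fun j => (hτ j).1
        rw [dp_neg] at hp
        exact fin τ hτ (Or.inl hal)
          (Or.inr (Or.inr ⟨hb1, (hU τ hs).2.2.2.2.1 (by linarith)⟩))
  · rcases hxb.lt_or_eq with hbl | hbe
    · rcases (abs_eq zero_le_one).1 hae with ha1 | ha1
      · obtain ⟨τ, hτ, hp⟩ := round_one hx1 ha1
        have hs : ∀ j, τ j = 1 ∨ τ j = -1 := fun j => (hτ j).1
        exact fin τ hτ (Or.inr (Or.inl ⟨ha1, (hU τ hs).2.1 hp⟩)) (Or.inl hbl)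
      · obtain ⟨τ, hτ, hp⟩ := round_one (a := -a) hx1 (by rw [dp_neg, ha1]; ring)
        have hs : ∀ j, τ j = 1 ∨ τ j = -1 := fun j => (hτ j).1
        rw [dp_neg] at hp
        exact fin τ hτ (Or.inr (Or.inr ⟨ha1, (hU τ hs).2.2.1 (by linarith)⟩)) (Or.inl hbl)
    · -- both functionals are tight
      have hne : ∀ c : Fin n → ℝ, |dp c x| = 1 → c ≠ 0 := by
        rintro c hc rfl
        simp [dp] at hc
      have ha0 := hne a hae
      have hb0 := hne b hbe
      have hna : ∀ j, |(-a) j| ≤ 1 := fun j => by rw [Pi.neg_apply, abs_neg]; exact ha j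
      have hnb : ∀ j, |(-b) j| ≤ 1 := fun j => by rw [Pi.neg_apply, abs_neg]; exact hb j
      rcases (abs_eq zero_le_one).1 hae with ha1 | ha1 <;>
        rcases (abs_eq zero_le_one).1 hbe with hb1 | hb1
      · -- (+, +)
        rcases round_two a b ha hb _ x le_rfl hx1 ha1 hb1 with ⟨τ, hτ, p1, p2⟩ |
          ⟨τ, σ, hτ, hσ, p1, p2, p3, p4⟩
        · have hs : ∀ j, τ j = 1 ∨ τ j = -1 := fun j => (hτ j).1
          obtain ⟨-, u1, u2, u3, u4, u5, u6, u7, u8⟩ := hU τ hs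
          exact fin τ hτ (Or.inr (Or.inl ⟨ha1, u1 p1⟩)) (Or.inr (Or.inl ⟨hb1, u3 p2⟩))
        · have hs : ∀ j, τ j = 1 ∨ τ j = -1 := fun j => (hτ j).1
          obtain ⟨-, u1, u2, u3, u4, u5, u6, u7, u8⟩ := hU τ hs
          exact fin τ hτ (Or.inr (Or.inl ⟨ha1, u1 p2⟩)) (Or.inr (Or.inl ⟨hb1, u5 hb0 p1 p2⟩))
      · -- (+, -)
        rcases round_two a (-b) ha hnb _ x le_rfl hx1 ha1 (by rw [dp_neg, hb1]; ring) with
          ⟨τ, hτ, p1, p2⟩ | ⟨τ, σ, hτ, hσ, p1, p2, p3, p4⟩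
        · have hs : ∀ j, τ j = 1 ∨ τ j = -1 := fun j => (hτ j).1
          obtain ⟨-, u1, u2, u3, u4, u5, u6, u7, u8⟩ := hU τ hs
          rw [dp_neg] at p2
          exact fin τ hτ (Or.inr (Or.inl ⟨ha1, u1 p1⟩))
            (Or.inr (Or.inr ⟨hb1, u4 (by linarith)⟩))
        · have hs : ∀ j, σ j = 1 ∨ σ j = -1 := fun j => (hσ j).1
          obtain ⟨-, u1, u2, u3, u4, u5, u6, u7, u8⟩ := hU σ hs
          rw [dp_neg] at p4
          exact fin σ hσ (Or.inr (Or.inl ⟨ha1, u8 ha0 p3 (by linarith)⟩))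
            (Or.inr (Or.inr ⟨hb1, u4 (by linarith)⟩))
      · -- (-, +)
        rcases round_two (-a) b hna hb _ x le_rfl hx1 (by rw [dp_neg, ha1]; ring) hb1 with
          ⟨τ, hτ, p1, p2⟩ | ⟨τ, σ, hτ, hσ, p1, p2, p3, p4⟩
        · have hs : ∀ j, τ j = 1 ∨ τ j = -1 := fun j => (hτ j).1
          obtain ⟨-, u1, u2, u3, u4, u5, u6, u7, u8⟩ := hU τ hs
          rw [dp_neg] at p1
          exact fin τ hτ (Or.inr (Or.inr ⟨ha1, u2 (by linarith)⟩))
            (Or.inr (Or.inl ⟨hb1, u3 p2⟩))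
        · have hs : ∀ j, σ j = 1 ∨ σ j = -1 := fun j => (hσ j).1
          obtain ⟨-, u1, u2, u3, u4, u5, u6, u7, u8⟩ := hU σ hs
          rw [dp_neg] at p3
          exact fin σ hσ (Or.inr (Or.inr ⟨ha1, u7 ha0 (by linarith) p4⟩))
            (Or.inr (Or.inl ⟨hb1, u3 p4⟩))
      · -- (-, -)
        rcases round_two (-a) (-b) hna hnb _ x le_rfl hx1 (by rw [dp_neg, ha1]; ring)
          (by rw [dp_neg, hb1]; ring) with
          ⟨τ, hτ, p1, p2⟩ | ⟨τ, σ, hτ, hσ, p1, p2, p3, p4⟩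
        · have hs : ∀ j, τ j = 1 ∨ τ j = -1 := fun j => (hτ j).1
          obtain ⟨-, u1, u2, u3, u4, u5, u6, u7, u8⟩ := hU τ hs
          rw [dp_neg] at p1 p2
          exact fin τ hτ (Or.inr (Or.inr ⟨ha1, u2 (by linarith)⟩))
            (Or.inr (Or.inr ⟨hb1, u4 (by linarith)⟩))
        · have hs : ∀ j, τ j = 1 ∨ τ j = -1 := fun j => (hτ j).1
          obtain ⟨-, u1, u2, u3, u4, u5, u6, u7, u8⟩ := hU τ hs
          rw [dp_neg] at p1 p2
          exact fin τ hτ (Or.inr (Or.inr ⟨ha1, u2 (by linarith)⟩))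
            (Or.inr (Or.inr ⟨hb1, u6 hb0 (by linarith) (by linarith)⟩))

end Pool.Agent.Helper762_FF
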