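import Mathlib
import Pool.Agent.Helper762_FF.Light

set_option autoImplicit false

/-!
# Centrally symmetric polytopes with at most `n + 2` pairs of facets
-/

namespace Pool.Agent.Helper762_FF

open Finset Pool.Agent.Y512 Matrix

variable {n : ℕ}

theorem dp_eq (a x : Fin n → ℝ) : dp a x = a ⬝ᵥ x := rfl

/-- a spanning family contains `n` rows with nonzero determinant -/
theorem exists_rows {m : ℕ} (G : Fin m → Fin n → ℝ)
    (hG : ∀ z : Fin n → ℝ, (∀ k, dp (G k) z = 0) → z = 0) :
    ∃ s : Fin n → Fin m, (Matrix.of fun i => G (s i)).det ≠ 0 := by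
  classical
  have hspan : Submodule.span ℝ (Set.range G) = ⊤ := by
    by_contra hne
    obtain ⟨f, hf, hle⟩ := Submodule.exists_le_ker_of_lt_top _ (lt_top_iff_ne_top.2 hne)
    apply hf
    have hfd : ∀ y : Fin n → ℝ, f y = dp y (fun j => f (Pi.single j 1)) := by
      intro y
      have hy : y = ∑ j, y j • (Pi.single j 1 : Fin n → ℝ) := by
        funext k
        simp [Finset.sum_apply, Pi.single_apply]
      conv_lhs => rw [hy]
      rw [map_sum, dp]
      refine Finset.sum_congr rfl fun j _ => ?_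
      rw [map_smul, smul_eq_mul]
    have hz := hG (fun j => f (Pi.single j 1)) (fun k => by
      rw [← hfd]
      exact hle (Submodule.subset_span ⟨k, rfl⟩))
    apply LinearMap.ext
    intro y
    rw [hfd, hz]
    simp [dp]
  obtain ⟨κ, a, -, hspan', hli⟩ := exists_linearIndependent' ℝ G
  rw [hspan] at hspan'
  let B : Module.Basis κ ℝ (Fin n → ℝ) := Module.Basis.mk hli hspan'.ge
  have : Finite κ := Module.Finite.finite_basis B
  have : Fintype κ := Fintype.ofFinite κ
  have hcard : Fintype.card κ = n := by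
    have := Module.finrank_eq_card_basis B
    simpa using this.symm
  let e : Fin n ≃ κ := (Fintype.equivFinOfCardEq hcard).symm
  refine ⟨fun i => a (e i), ?_⟩
  have hli' : LinearIndependent ℝ (fun i => G (a (e i))) := hli.comp e e.injective
  have := (Matrix.linearIndependent_rows_iff_isUnit (A := Matrix.of fun i => G (a (e i)))).1 hli'
  exact ((Matrix.isUnit_iff_isUnit_det _).1 this).ne_zero

/-- **Main theorem in coordinates.** -/
theorem covN_slabs (G : Fin (n + 2) → Fin n → ℝ)
    (hG : ∀ z : Fin n → ℝ, (∀ k, dp (G k) z = 0) → z = 0) :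
    CovN (2 ^ n) {x : Fin n → ℝ | ∀ k, |dp (G k) x| ≤ 1} := by
  classical
  let D : (Fin n → Fin (n + 2)) → ℝ := fun s => |(Matrix.of fun i => G (s i)).det|
  obtain ⟨s0, hs0⟩ := exists_rows G hG
  obtain ⟨s, hs⟩ := Finite.exists_max D
  have hDpos : 0 < D s := (abs_pos.2 hs0).trans_le (hs s0)
  have hdet : (Matrix.of fun i => G (s i)).det ≠ 0 := abs_pos.1 hDpos
  set A : Matrix (Fin n) (Fin n) ℝ := Matrix.of fun i => G (s i) with hA
  have hunit : IsUnit A.det := isUnit_iff_ne_zero.2 hdet
  let u : Fin n → Fin n → ℝ := fun i => A⁻¹ *ᵥ (Pi.single i 1)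
  have hu : ∀ i, A *ᵥ u i = Pi.single i 1 := by
    intro i
    simp only [u]
    rw [Matrix.mulVec_mulVec, Matrix.mul_nonsing_inv _ hunit, Matrix.one_mulVec]
  -- the coefficients
  let c : Fin (n + 2) → Fin n → ℝ := fun k i => dp (G k) (u i)
  have hc : ∀ k i, |c k i| ≤ 1 := by
    intro k i
    have h1 := hs (Function.update s i k)
    have h2 : (Matrix.of fun j => G (Function.update s i k j)) = A.updateRow i (G k) := by
      ext j l
      by_cases h : j = i
      · subst h; simp
      · simp [Function.update_of_ne h, Matrix.updateRow_ne h, hA]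
    have h3 : D (Function.update s i k) = |A.det| * |c k i| := by
      simp only [D]
      rw [h2, det_updateRow_eq A i (G k) (u i) (hu i), abs_mul]
      rfl
    rw [h3] at h1
    have h4 : 0 < |A.det| := abs_pos.2 hdet
    have h5 : |A.det| * |c k i| ≤ |A.det| * 1 := by rw [mul_one]; exact h1
    exact le_of_mul_le_mul_left h5 h4
  have hAx : ∀ x i, (A *ᵥ x) i = dp (G (s i)) x := by
    intro x i; rfl
  have hdp : ∀ k x, dp (G k) x = dp (c k) (A *ᵥ x) := by
    intro k x
    have hx : x = ∑ i, (A *ᵥ x) i • u i := by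
      have h1 : A *ᵥ (∑ i, (A *ᵥ x) i • u i) = A *ᵥ x := by
        rw [Matrix.mulVec_sum]
        simp only [Matrix.mulVec_smul, hu]
        funext j
        simp [Finset.sum_apply, Pi.single_apply]
      have h2 := congrArg (fun v => A⁻¹ *ᵥ v) h1
      simp only [Matrix.mulVec_mulVec, Matrix.nonsing_inv_mul _ hunit, Matrix.one_mulVec] at h2
      exact h2.symm
    have hlin : dp (G k) x = ∑ i, (A *ᵥ x) i * dp (G k) (u i) := by
      conv_lhs => rw [hx]
      simp only [dp_eq, dotProduct_sum, dotProduct_smul, smul_eq_mul]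
    rw [hlin]
    simp only [dp, c]
    refine Finset.sum_congr rfl fun i _ => ?_
    ring
  have hinj : Function.Injective s := by
    intro i j hij
    by_contra hne
    apply hdet
    apply Matrix.det_zero_of_row_eq hne
    funext l
    simp [hA, hij]
  have hcs : ∀ i y, dp (c (s i)) y = y i := by
    intro i y
    have h1 : ∀ j, c (s i) j = (Pi.single j 1 : Fin n → ℝ) i := by
      intro j
      rw [← hu j]
      rfl
    simp only [dp, h1]
    rw [Finset.sum_eq_single i]
    · simp
    · intro j _ hj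
      simp [Pi.single_eq_of_ne hj.symm]
    · simp
  -- the two remaining indices
  obtain ⟨k1, k2, hk⟩ : ∃ k1 k2 : Fin (n + 2), ∀ k, k = k1 ∨ k = k2 ∨ ∃ i, k = s i := by
    have h1 : (univ.image s).card = n := by
      rw [Finset.card_image_of_injective _ hinj]; simp
    have h2 : (univ.image s)ᶜ.card = 2 := by
      rw [Finset.card_compl, h1]; simp
    obtain ⟨k1, k2, -, h3⟩ := Finset.card_eq_two.1 h2
    refine ⟨k1, k2, fun k => ?_⟩
    by_cases hk : k ∈ univ.image s
    · right; right
      obtain ⟨i, -, hi⟩ := Finset.mem_image.1 hk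
      exact ⟨i, hi.symm⟩
    · have : k ∈ (univ.image s)ᶜ := Finset.mem_compl.2 hk
      rw [h3] at this
      simp only [Finset.mem_insert, Finset.mem_singleton] at this
      rcases this with h | h
      · exact Or.inl h
      · exact Or.inr (Or.inl h)
  -- the linear map
  let L : (Fin n → ℝ) →ₗ[ℝ] (Fin n → ℝ) := Matrix.mulVecLin A
  have hLinj : Function.Injective L := by
    intro x y hxy
    have h1 : A *ᵥ x = A *ᵥ y := hxy
    have h2 := congrArg (fun v => A⁻¹ *ᵥ v) h1
    simp only [Matrix.mulVec_mulVec, Matrix.nonsing_inv_mul _ hunit, Matrix.one_mulVec] at h2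
    exact h2
  let E : (Fin n → ℝ) ≃L[ℝ] (Fin n → ℝ) :=
    (LinearEquiv.ofInjectiveEndo L hLinj).toContinuousLinearEquiv
  have hE : ∀ x, E x = A *ᵥ x := fun x => rfl
  apply covN_of_image E 0
  have himg : (fun x => E x + 0) '' {x : Fin n → ℝ | ∀ k, |dp (G k) x| ≤ 1} = K2 (c k1) (c k2) := by
    ext y
    constructor
    · rintro ⟨x, hx, rfl⟩
      simp only [add_zero, hE]
      refine ⟨fun j => ?_, ?_, ?_⟩
      · rw [hAx]; exact hx (s j)
      · rw [← hdp]; exact hx k1
      · rw [← hdp]; exact hx k2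
    · rintro ⟨h1, h2, h3⟩
      refine ⟨E.symm y, ?_, by simp⟩
      intro k
      rw [hdp, ← hE, ContinuousLinearEquiv.apply_symm_apply]
      rcases hk k with rfl | rfl | ⟨i, rfl⟩
      · exact h2
      · exact h3
      · rw [hcs]; exact h1 i
  rw [himg]
  exact covN_K2 _ _ (hc k1) (hc k2)

/-- **Main theorem.** A bounded intersection of `n + 2` slabs centred at the origin of `ℝ^n` is
covered by at most `2 ^ n` translates of its interior. -/
theorem main (g : Fin (n + 2) → EuclideanSpace ℝ (Fin n))
    (hb : Bornology.IsBounded {x : EuclideanSpace ℝ (Fin n) | ∀ k, |inner ℝ (g k) x| ≤ 1}) :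
    CovN (2 ^ n) {x : EuclideanSpace ℝ (Fin n) | ∀ k, |inner ℝ (g k) x| ≤ 1} := by
  let Φ : EuclideanSpace ℝ (Fin n) ≃L[ℝ] (Fin n → ℝ) := EuclideanSpace.equiv (Fin n) ℝ
  have hin : ∀ v x : EuclideanSpace ℝ (Fin n), inner ℝ v x = dp (Φ v) (Φ x) := by
    intro v x
    rw [PiLp.inner_apply]
    simp only [dp]
    refine Finset.sum_congr rfl fun j _ => ?_
    simp [Φ, mul_comm]
  apply covN_of_image Φ 0
  have himg : (fun x => Φ x + 0) '' {x : EuclideanSpace ℝ (Fin n) | ∀ k, |inner ℝ (g k) x| ≤ 1} =
      {x : Fin n → ℝ | ∀ k, |dp (Φ (g k)) x| ≤ 1} := by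
    ext y
    constructor
    · rintro ⟨x, hx, rfl⟩
      intro k
      have := hx k
      rw [hin] at this
      simpa using this
    · intro hy
      refine ⟨Φ.symm y, ?_, by simp⟩
      intro k
      rw [hin, ContinuousLinearEquiv.apply_symm_apply]
      exact hy k
  rw [himg]
  apply covN_slabs
  intro z hz
  by_contra hne
  -- the whole line through `z` is in the body
  obtain ⟨R, hR⟩ := hb.exists_norm_le
  have hz' : Φ.symm z ≠ 0 := by
    intro h
    apply hne
    have := congrArg Φ h
    simpa using this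
  have hpos : 0 < ‖Φ.symm z‖ := norm_pos_iff.2 hz'
  have h1 := hR (((|R| + 1) / ‖Φ.symm z‖) • Φ.symm z) (by
    intro k
    rw [hin, map_smul, ContinuousLinearEquiv.apply_symm_apply, dp_smul, hz k]
    simp)
  rw [norm_smul, norm_div, norm_norm, div_mul_cancel₀ _ hpos.ne', Real.norm_eq_abs] at h1
  have h2 := le_abs_self (|R| + 1)
  have h3 := le_abs_self R
  linarith

end Pool.Agent.Helper762_FF
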